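import Pool.Agent.H61.GLA.BR
import Pool.Agent.H23.LB.Targets

/-!
# A lower bound for the Epstein zeta function
-/

set_option autoImplicit false

namespace Pool.Agent.H61.GLA

open Pool.Agent.H23.LB

/-- (LF) -/
theorem pf_LF : T_LF := by
  intro κ hκ
  refine ⟨1 / (κ * (κ + 1)), by positivity, ?_⟩
  intro ι _ _ _ P hP hd
  obtain ⟨A, _, hA, rfl⟩ := root P hP hd
  exact pf_LF' κ hκ A hA

end Pool.Agent.H61.GLA
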