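import Pool.Agent.H61.GLA.MSa
import Pool.Agent.H23.LB.Targets

/-!
# Integrals of theta functions of two unimodular lattices: the bound
-/

set_option autoImplicit false

open MeasureTheory Set Filter Module
open scoped Matrix RealInnerProductSpace ENNReal

namespace Pool.Agent.H61.GLA

open Pool.Agent.H25.HK Pool.Agent.H23.LB Pool.Agent.H61.MV

variable {ι : Type} [Fintype ι] [DecidableEq ι]

lemma det_smul_ne (c : ℝ) (hc : c ≠ 0) (A : Matrix ι ι ℝ) (hA : A.det ≠ 0) :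
    (c • A).det ≠ 0 := by
  rw [Matrix.det_smul]
  exact mul_ne_zero (pow_ne_zero _ hc) hA

/-- integral of `gt A (gt B + 1)` -/
lemma pair [Nonempty ι] (κ : ℝ) (hκ : 0 < κ) (A B : Matrix ι ι ℝ) (hA : A.det ≠ 0)
    (hB : B.det ≠ 0) (b : ℝ) (hb : 0 < b) (hb1 : b ≤ 1) :
    IntegrableOn (fun t => gt A (b * t) * (gt B (b * t) + 1) * t ^ (κ / 2)) (Ioi 1) ∧
    ∫ t in Ioi (1 : ℝ), gt A (b * t) * (gt B (b * t) + 1) * t ^ (κ / 2) =
      (∫ t in Ioi (1 : ℝ), gt A (b * t) * gt B (b * t) * t ^ (κ / 2)) +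
      ∫ t in Ioi (1 : ℝ), gt A (b * t) * t ^ (κ / 2) := by
  have h1 := (J1 κ hκ A hA b hb).1
  have h2 := (J2 poi κ hκ A B hA hB b hb hb1).1
  have e : (fun t => gt A (b * t) * (gt B (b * t) + 1) * t ^ (κ / 2)) =
      fun t => gt A (b * t) * gt B (b * t) * t ^ (κ / 2) + gt A (b * t) * t ^ (κ / 2) := by
    funext t
    ring
  rw [e]
  exact ⟨h2.add h1, integral_add h2 h1⟩

/-- (MS) -/
theorem pf_MS : T_MS := by
  intro n hn
  refine ⟨3, fun κ hκ hκ1 => ?_⟩
  set G := cG n κ with hG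
  have hG0 : 0 < G := cG_pos n hn κ hκ
  set D := 1 + κ * (κ + 1) * G with hD
  have hD1 : 1 ≤ D := by
    have : 0 < κ * (κ + 1) * G := by positivity
    linarith
  refine ⟨(D2 n κ * (9 * D ^ 2) + C3 n (1 + κ) * (2 / κ)) / G, ?_⟩
  intro ι _ _ P Q hP hQ hdP hdQ hι N b hN hb hb1
  have hne : Nonempty ι := by
    rw [← Fintype.card_pos_iff, hι]
    exact hn
  obtain ⟨A, hA0, hA, rfl⟩ := root P hP hdP
  obtain ⟨B, hB0, hB, rfl⟩ := root Q hQ hdQ
  have hN0 : 0 < N := by linarith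
  have hdA := det_dm_ne hA0
  have hdB := det_dm_ne hB0
  have hdA1 : |(dm A).det| = 1 := by rw [det_dm, abs_inv, hA, inv_one]
  have hdB1 : |(dm B).det| = 1 := by rw [det_dm, abs_inv, hB, inv_one]
  rw [inv_eq, inv_eq]
  have aA := AF_eq κ hκ A hA0
  have aA' := AF_eq κ hκ (dm A) hdA
  have aB := AF_eq κ hκ B hB0
  have aB' := AF_eq κ hκ (dm B) hdB
  have lA := pf_LF' κ hκ A hA
  have lB := pf_LF' κ hκ B hB
  rw [hι, ← hG] at aA aA' aB aB'
  rw [aA] at lA
  rw [aB] at lB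
  rw [aA, aA', aB, aB']
  set σ := 1 + κ with hσ
  have hσ1 : 1 < σ := by linarith
  have pA := Ep_nonneg σ A
  have pA' := Ep_nonneg σ (dm A)
  have pB := Ep_nonneg σ B
  have pB' := Ep_nonneg σ (dm B)
  set EP := Ep σ A + Ep σ (dm A) with hEP
  set EQ := Ep σ B + Ep σ (dm B) with hEQ
  have key : ∀ E E' : ℝ, 0 ≤ E → 0 ≤ E' → 1 / (κ * (κ + 1)) ≤ G * E → 1 ≤ D * (E + E') := by
    intro E E' h0 h0' h
    rw [div_le_iff₀ (by positivity)] at h
    have h1 : G * E * (κ * (κ + 1)) = κ * (κ + 1) * G * E := by ring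
    have h2 : 0 ≤ κ * (κ + 1) * G * E' := by positivity
    rw [hD]
    nlinarith
  have hEP1 : 1 ≤ D * EP := key _ _ pA pA' lA
  have hEQ1 : 1 ≤ D * EQ := key _ _ pB pB' lB
  have hEP0 : 0 ≤ EP := by linarith
  have hEQ0 : 0 ≤ EQ := by linarith
  set c := N ^ (-(1 / (Fintype.card ι : ℝ))) with hc
  have hc0 : 0 < c := Real.rpow_pos_of_pos hN0 _
  have hcA := det_smul_ne c hc0.ne' A hA0
  have hcA' := det_smul_ne c⁻¹ (inv_ne_zero hc0.ne') (dm A) hdA
  have xA := xx_bound σ hσ1 A hA N hN EP (by linarith) (by linarith)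
  rw [← hc] at xA
  have yB : ∀ B' : Matrix ι ι ℝ, |B'.det| = 1 → Ep σ B' ≤ EQ → Ep σ (dm B') ≤ EQ →
      xx B' ≤ 1 + 2 * EQ ^ (1 / (2 * σ)) := by
    intro B' h1 h2 h3
    have h4 := (xx_bound σ hσ1 B' h1 1 le_rfl EQ h2 h3).1
    rw [Real.one_rpow, one_smul, Real.one_rpow, one_mul] at h4
    exact h4
  have yB1 := yB B hB (by linarith) (by linarith)
  have yB2 := yB (dm B) hdB1 (by linarith) (by rw [dm_dm hB0]; linarith)
  have bp : ∀ p : ℝ, p ≤ 3 → b ^ (-p) ≤ b ^ (-(3 : ℝ)) := fun p hp =>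
    Real.rpow_le_rpow_of_exponent_ge hb hb1 (by linarith)
  have bp1 := bp (2 + κ) (by linarith)
  have bp2 := bp σ (by linarith)
  have hD2 : 0 ≤ D2 n κ := by
    unfold D2
    have h1 := Ct_pos n
    have h2 := one_le_C3 n (1 + κ)
    positivity
  have hC3 : 0 ≤ C3 n σ := by linarith [one_le_C3 n σ]
  set Y := N * EQ + N ^ σ * EP with hY
  have hY0 : 0 ≤ Y := by positivity
  have hfin : ∀ I₁ I₂ : ℝ, I₁ ≤ D2 n κ * (b ^ (-(3 : ℝ)) * (9 * D ^ 2 * Y)) →
      I₂ ≤ C3 n σ * (2 / κ) * (b ^ (-(3 : ℝ)) * Y) →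
      I₁ + I₂ ≤ (D2 n κ * (9 * D ^ 2) + C3 n σ * (2 / κ)) / G * b ^ (-(3 : ℝ)) *
        (N * (G * Ep σ B + G * Ep σ (dm B)) + N ^ σ * (G * Ep σ A + G * Ep σ (dm A))) := by
    intro I₁ I₂ h1 h2
    have e : (D2 n κ * (9 * D ^ 2) + C3 n σ * (2 / κ)) / G * b ^ (-(3 : ℝ)) *
        (N * (G * Ep σ B + G * Ep σ (dm B)) + N ^ σ * (G * Ep σ A + G * Ep σ (dm A))) =
        (D2 n κ * (9 * D ^ 2) + C3 n σ * (2 / κ)) * b ^ (-(3 : ℝ)) * Y := by
      rw [hY, hEP, hEQ]
      field_simp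
    rw [e]
    linarith
  constructor
  · have h := pair κ hκ (c • A) B hcA hB0 b hb hb1
    have e : ∀ T ∈ Ioi (1 : ℝ), (Fs (A.transpose * A) (T * b / N) - 1) *
        Fs (B.transpose * B) (T * b) * T ^ (κ / 2) =
        gt (c • A) (b * T) * (gt B (b * T) + 1) * T ^ (κ / 2) := by
      intro T hT
      have hT0 : (0 : ℝ) < T := lt_trans one_pos hT
      rw [Fs_div A N b T hN0 hb hT0, Fs_one, add_sub_cancel_right]
    refine ⟨(integrableOn_congr_fun e measurableSet_Ioi).mpr h.1, ?_⟩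
    rw [setIntegral_congr_fun measurableSet_Ioi e, h.2]
    refine hfin _ _ ?_ ?_
    · have h2 := (J2 poi κ hκ (c • A) B hcA hB0 b hb hb1).2
      rw [hι] at h2
      refine h2.trans (mul_le_mul_of_nonneg_left ?_ hD2)
      have hx0 := xx_nonneg (c • A)
      have hy0 := xx_nonneg B
      have h3 := core σ D N EP EQ (xx (c • A)) (xx B) (Ep σ B) hσ1 hD1 hN hEP1 hEQ1
        hy0 pB xA.1 yB1 (by linarith)
      exact mul_le_mul bp1 h3 (by positivity) (by positivity)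
    · have h2 := (J1 κ hκ (c • A) hcA b hb).2
      rw [hι] at h2
      refine h2.trans (mul_le_mul_of_nonneg_left ?_ (by positivity))
      refine mul_le_mul bp2 ?_ (Ep_nonneg _ _) (by positivity)
      rw [Ep_smul c hc0, hc, ← Real.rpow_mul hN0.le]
      have e2 : -(1 / (Fintype.card ι : ℝ)) * -((Fintype.card ι : ℝ) * (1 + κ)) = σ := by
        have : (Fintype.card ι : ℝ) ≠ 0 := by
          have := Fintype.card_pos (α := ι)
          positivity
        field_simp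
        exact hσ
      rw [e2]
      have h3 : N ^ σ * Ep σ A ≤ N ^ σ * EP := mul_le_mul_of_nonneg_left (by linarith) (by positivity)
      have h4 : 0 ≤ N * EQ := by positivity
      linarith
  · have h := pair κ hκ (c⁻¹ • dm A) (dm B) hcA' hdB b hb hb1
    have h' := pair κ hκ (dm B) (c⁻¹ • dm A) hdB hcA' b hb hb1
    have e : ∀ T ∈ Ioi (1 : ℝ), N * ((Fs ((dm B).transpose * dm B) (T * b) - 1) *
        Fs ((dm A).transpose * dm A) (T * b * N)) * T ^ (κ / 2) =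
        N * (gt (dm B) (b * T) * (gt (c⁻¹ • dm A) (b * T) + 1) * T ^ (κ / 2)) := by
      intro T hT
      have hT0 : (0 : ℝ) < T := lt_trans one_pos hT
      rw [Fs_mul A N b T hN0 hb hT0, Fs_one, add_sub_cancel_right]
      ring
    refine ⟨(integrableOn_congr_fun e measurableSet_Ioi).mpr (h'.1.const_mul N), ?_⟩
    rw [setIntegral_congr_fun measurableSet_Ioi e, integral_const_mul, h'.2, mul_add]
    refine hfin _ _ ?_ ?_
    · have h2 := (J2 poi κ hκ (c⁻¹ • dm A) (dm B) hcA' hdB b hb hb1).2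
      rw [hι] at h2
      have e3 : ∫ t in Ioi (1 : ℝ), gt (dm B) (b * t) * gt (c⁻¹ • dm A) (b * t) * t ^ (κ / 2) =
          ∫ t in Ioi (1 : ℝ), gt (c⁻¹ • dm A) (b * t) * gt (dm B) (b * t) * t ^ (κ / 2) := by
        refine setIntegral_congr_fun measurableSet_Ioi fun t _ => ?_
        ring
      rw [e3]
      have h4 := mul_le_mul_of_nonneg_left h2 hN0.le
      refine h4.trans ?_
      have hx0 := xx_nonneg (c⁻¹ • dm A)
      have hy0 := xx_nonneg (dm B)
      have h3 := core σ D N EP EQ (N * xx (c⁻¹ • dm A)) (xx (dm B)) (Ep σ (dm B)) hσ1 hD1 hN hEP1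
        hEQ1 hy0 pB' xA.2 yB2 (by linarith)
      have h5 := mul_le_mul bp1 h3 (by positivity) (by positivity)
      have h6 := mul_le_mul_of_nonneg_left h5 hD2
      refine le_trans (le_of_eq ?_) h6
      rw [hσ]
      ring
    · have h2 := (J1 κ hκ (dm B) hdB b hb).2
      rw [hι] at h2
      have h4 := mul_le_mul_of_nonneg_left h2 hN0.le
      refine h4.trans ?_
      have e4 : N * (C3 n (1 + κ) * (2 / κ) * (b ^ (-(1 + κ)) * Ep (1 + κ) (dm B))) =
          C3 n σ * (2 / κ) * (b ^ (-σ) * (N * Ep σ (dm B))) := by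
        rw [hσ]
        ring
      rw [e4]
      refine mul_le_mul_of_nonneg_left ?_ (by positivity)
      refine mul_le_mul bp2 ?_ (by positivity) (by positivity)
      have h5 : N * Ep σ (dm B) ≤ N * EQ := mul_le_mul_of_nonneg_left (by linarith) hN0.le
      have h6 : 0 ≤ N ^ σ * EP := by positivity
      linarith

end Pool.Agent.H61.GLA
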