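import Pool.Agent.H61.GLA.H2a
import Pool.Agent.H48.RC.RX

/-!
# The dual pair inequality
-/

set_option autoImplicit false

open NumberField NumberField.InfinitePlace NumberField.Units
  NumberField.Units.dirichletUnitTheorem MeasureTheory Set Filter Complex
open scoped nonZeroDivisors ENNReal

namespace Pool.Agent.H61.GLA

open Pool.Agent.H25.HK Pool.Agent.H28.RC Pool.Agent.H23.LB

variable {K : Type} [Field K] [NumberField K]

lemma rep_card_le (f : Ideal (𝓞 K)) (M : FI K) (hf : f ≠ ⊥) (hM : M ≠ 0) (X : Finset K)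
    (hX : Rep K f M X) : (X.card : ℝ) ≤ Nf K f := by
  classical
  obtain ⟨Y, hY, hcard⟩ := Pool.Agent.H48.RC.pf_RX K f M hf hM
  have h : X.card ≤ Y.card := by
    have hex : ∀ x : K, ∃ r : K, x ∈ X → r ∈ Y ∧ x - r ∈ (f : FI K) * M := by
      intro x
      by_cases hx : x ∈ X
      · obtain ⟨r, hr, _⟩ := hY.2 x (hX.1 x hx)
        exact ⟨r, fun _ => hr⟩
      · exact ⟨0, fun h => absurd h hx⟩
    choose F hF using hex
    refine Finset.card_le_card_of_injOn F (fun x hx => (hF x hx).1) ?_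
    intro x hx x' hx' h
    obtain ⟨r, _, hu⟩ := hX.2 x (hX.1 x hx)
    have h1 : x = r := hu x ⟨hx, by rw [sub_self]; exact Pool.Agent.H69.RC.fzero _⟩
    have h2 : x - x' ∈ (f : FI K) * M := by
      have h3 : x - x' = (x - F x) - (x' - F x') := by rw [h]; ring
      rw [h3]
      exact Pool.Agent.H69.RC.fsub (hF x hx).2 (hF x' hx').2
    have h3 : x' = r := hu x' ⟨hx', h2⟩
    rw [h1, h3]
  unfold Nf
  rw [← hcard]
  exact_mod_cast h

lemma cv_pos' (M : FI K) (hM : M ≠ 0) : 0 < cv K M := by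
  unfold cv
  have h1 : (0 : ℝ) < |(discr K : ℝ)| := abs_pos.mpr (by exact_mod_cast discr_ne_zero K)
  have h2 : (0 : ℚ) ≤ FractionalIdeal.absNorm M := FractionalIdeal.absNorm_nonneg M
  have h3 : FractionalIdeal.absNorm M ≠ 0 := fun h => hM (FractionalIdeal.absNorm_eq_zero_iff.mp h)
  have h4 : (0 : ℚ) < FractionalIdeal.absNorm M := lt_of_le_of_ne h2 h3.symm
  have h5 : (0 : ℝ) < (FractionalIdeal.absNorm M : ℝ) := by exact_mod_cast h4
  positivity

lemma cv_du (hDU : T_DU) (M : FI K) (hM : M ≠ 0) : cv K (du K M) = (cv K M)⁻¹ := by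
  obtain ⟨-, -, -, -, h⟩ := hDU K M hM
  have hd : (0 : ℝ) < |(discr K : ℝ)| := abs_pos.mpr (by exact_mod_cast discr_ne_zero K)
  refine eq_inv_of_mul_eq_one_left ?_
  unfold cv
  have hs := Real.mul_self_sqrt hd.le
  calc Real.sqrt |(discr K : ℝ)| * (FractionalIdeal.absNorm (du K M) : ℝ) *
      (Real.sqrt |(discr K : ℝ)| * (FractionalIdeal.absNorm M : ℝ)) =
      (Real.sqrt |(discr K : ℝ)| * Real.sqrt |(discr K : ℝ)|) *
        ((FractionalIdeal.absNorm (du K M) : ℝ) * (FractionalIdeal.absNorm M : ℝ)) := by ring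
    _ = 1 := by
      rw [hs]
      linarith

lemma cv_fmul (f : Ideal (𝓞 K)) (M : FI K) : cv K ((f : FI K) * M) = Nf K f * cv K M := by
  unfold cv Nf
  rw [map_mul, FractionalIdeal.coeIdeal_absNorm]
  push_cast
  ring

lemma yc_shift (hYC : T_YC) (τ c : ℝ) (hc : 0 < c) (z : logSpace K) :
    (fun v => yc K τ z v + Real.log c) =
      yc K (τ + Real.log (c ^ ((Module.finrank ℚ K : ℝ) / 2))) z := by
  obtain ⟨-, -, -, h, -⟩ := hYC K
  have hn : (0 : ℝ) < Module.finrank ℚ K := by exact_mod_cast Module.finrank_pos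
  funext v
  rw [h τ z v, h (τ + Real.log (c ^ ((Module.finrank ℚ K : ℝ) / 2))) z v, Real.log_rpow hc]
  field_simp
  ring

/-- the theta function with a factor in the exponent -/
lemma FT_eq_tsum (hYC : T_YC) (L : FI K) (hL : L ≠ 0) (z : logSpace K) (t c : ℝ) (ht : 0 < t)
    (hc : 0 < c) : FT K L z (t * c ^ ((Module.finrank ℚ K : ℝ) / 2) * cv K L) =
      ∑' x : {x : K // x ∈ L}, Real.exp (-Real.pi * (c * qK K (yc K (Real.log t) z) x)) := by
  unfold FT th
  have hcv := cv_pos' L hL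
  have h0 : 0 < c ^ ((Module.finrank ℚ K : ℝ) / 2) := Real.rpow_pos_of_pos hc _
  have h1 : t * c ^ ((Module.finrank ℚ K : ℝ) / 2) * cv K L / cv K L =
      t * c ^ ((Module.finrank ℚ K : ℝ) / 2) := by field_simp
  rw [h1, Real.log_mul ht.ne' h0.ne', ← yc_shift hYC (Real.log t) c hc z]
  refine tsum_congr fun x => ?_
  rw [qK_shift _ c hc]

/-- (H2) -/
theorem pf_H2 (hSM : T_SMc) (hTH : T_TH) (hYC : T_YC) (hDU : T_DU) : T_H2 := by
  classical
  intro K _ _ S f M X φ hf hM hX hφ z T b hT hb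
  set n : ℝ := (Module.finrank ℚ K : ℝ) with hn
  set β := Real.cos φ with hβ
  have hβ0 : 0 < β := Real.cos_pos_of_mem_Ioo ⟨by linarith [(abs_lt.mp hφ).1], (abs_lt.mp hφ).2⟩
  have hβ1 : β ≤ 1 := Real.cos_le_one φ
  have hf0 : (f : FI K) ≠ 0 := by
    rw [Ne, FractionalIdeal.coeIdeal_eq_zero]
    exact hf
  have hfM : (f : FI K) * M ≠ 0 := mul_ne_zero hf0 hM
  obtain ⟨hL, hL2, -, -, -⟩ := hDU K _ hfM
  obtain ⟨hL', hL'2, -, -, -⟩ := hDU K M hM
  set L := du K ((f : FI K) * M) with hLd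
  set L' := du K M with hLd'
  have hcvL : cv K L = (cv K ((f : FI K) * M))⁻¹ := cv_du hDU _ hfM
  have hcvL' : cv K L' = (cv K M)⁻¹ := cv_du hDU _ hM
  have hcf := cv_fmul f M
  have hcM := cv_pos' M hM
  have hcfM := cv_pos' _ hfM
  have hfMM : (f : FI K) * M ≤ M := by
    have : (f : FI K) * M ≤ 1 * M := by
      gcongr
      exact FractionalIdeal.coeIdeal_le_one
    rwa [one_mul] at this
  have hLL : L' ≤ L := by
    intro x hx
    rw [hLd', Pool.Agent.H48.RC.mem_du_iff hM] at hx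
    rw [hLd, Pool.Agent.H48.RC.mem_du_iff hfM]
    exact fun a ha => hx a (hfMM ha)
  have hNf : 0 < Nf K f := by
    have h1 : cv K ((f : FI K) * M) / cv K M = Nf K f := by
      rw [hcf]
      field_simp
    rw [← h1]
    positivity
  set y := yc K (Real.log (T * cv K ((f : FI K) * M))) (-z) with hy
  have hTc : 0 < T * cv K ((f : FI K) * M) := by positivity
  -- summability
  have hs : ∀ (N : FI K), N ≠ 0 → ∀ c : ℝ, 0 < c → Summable fun x : {x : K // x ∈ N} =>
      Real.exp (-Real.pi * (c * qK K y x)) := by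
    intro N hN c hc
    have h1 := (hTH K N hN (fun v => y v + Real.log c)).1
    refine h1.congr fun x => ?_
    rw [qK_shift y c hc]
  -- the terms
  set ζ : ℂ := -(φ * I) with hζ
  let w0 : K → ℂ := fun x => ((ws K S y x : ℝ) : ℂ) *
    (cexp (ζ * S.card / 2) * cexp (-Real.pi * (cexp ζ * ((qK K y x : ℝ) : ℂ))))
  let w : K → ℂ := fun x => if x = 0 then 0 else w0 x
  have hw0n : ∀ x, ‖w0 x‖ = |ws K S y x| * Real.exp (-Real.pi * (β * qK K y x)) := by
    intro x
    simp only [w0]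
    rw [norm_mul, norm_mul, Complex.norm_real, Real.norm_eq_abs, Complex.norm_exp,
      Complex.norm_exp]
    have e1 : (ζ * S.card / 2).re = 0 := by
      rw [hζ]
      simp
    have e2 : (-(Real.pi : ℂ) * (cexp ζ * ((qK K y x : ℝ) : ℂ))).re =
        -Real.pi * (β * qK K y x) := by
      have e3 : (cexp ζ).re = β := by
        rw [hζ, Complex.exp_re]
        simp [hβ]
      have e4 : -(Real.pi : ℂ) * (cexp ζ * ((qK K y x : ℝ) : ℂ)) =
          ((-Real.pi * qK K y x : ℝ) : ℂ) * cexp ζ := by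
        push_cast
        ring
      rw [e4, Complex.re_ofReal_mul, e3]
      ring
    rw [e1, e2, Real.exp_zero, one_mul]
  have hwb : ∀ x ∈ L, ‖w x‖ ≤ β ^ (-(n / 2)) * Real.exp (-Real.pi * (β / 2 * qK K y x)) := by
    intro x _
    by_cases hx : x = 0
    · simp only [w, if_pos hx, norm_zero]
      positivity
    · simp only [w, if_neg hx]
      rw [hw0n]
      exact term_bound hSM S M hM y β hβ0 hβ1 x
  have hw00 : w0 0 = d1 K S := by
    have hq : qK K y (0 : K) = 0 := by
      unfold qK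
      simp
    simp only [w0]
    rw [hq]
    unfold d1
    by_cases hS : S = ∅
    · rw [if_pos hS, hS]
      unfold ws
      simp
    · rw [if_neg hS]
      obtain ⟨v, hv⟩ := Finset.nonempty_iff_ne_empty.mpr hS
      have : ws K S y (0 : K) = 0 := by
        unfold ws
        refine Finset.prod_eq_zero hv ?_
        unfold Pool.Agent.H28.RC.re
        simp
      rw [this]
      simp
  have hca0 : ∀ r : K, ca K r 0 = 1 := by
    intro r
    unfold ca
    simp
  have hcan : ∀ r x : K, ‖ca K r x‖ = 1 := by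
    intro r x
    unfold ca
    rw [Complex.norm_exp]
    simp
  have hsw0 : ∀ r, Summable fun x : {x : K // x ∈ L} => ca K r x * w0 x := by
    intro r
    refine Summable.of_norm ?_
    refine Summable.of_nonneg_of_le (fun _ => norm_nonneg _) (fun x => ?_)
      ((hs L hL (β / 2) (by positivity)).mul_left (β ^ (-(n / 2))))
    rw [norm_mul, hcan, one_mul, hw0n]
    exact term_bound hSM S M hM y β hβ0 hβ1 x
  have hD : ∀ r, W' K S f M r φ z T - d1 K S =
      ∑' x : {x : K // x ∈ L}, ca K r x * w x := by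
    intro r
    have h1 := (hsw0 r).hasSum
    have h2 := hasSum_ite_eq (⟨0, (L : Submodule (𝓞 K) K).zero_mem⟩ : {x : K // x ∈ L})
      (d1 K S)
    have h3 : HasSum (fun x : {x : K // x ∈ L} => ca K r x * w x)
        ((∑' x : {x : K // x ∈ L}, ca K r x * w0 x) - d1 K S) := by
      refine (h1.sub h2).congr_fun ?_ |> id
      intro x
      by_cases hx : (x : K) = 0
      · have hx' : x = (⟨0, (L : Submodule (𝓞 K) K).zero_mem⟩ : {x : K // x ∈ L}) :=
          Subtype.ext hx
        rw [if_pos hx', hx]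
        simp only [w, if_true, mul_zero]
        rw [hca0, one_mul, hw00, sub_self]
      · have hx' : x ≠ (⟨0, (L : Submodule (𝓞 K) K).zero_mem⟩ : {x : K // x ∈ L}) :=
          fun h => hx (congrArg Subtype.val h)
        rw [if_neg hx', sub_zero]
        simp only [w, if_neg hx]
    rw [h3.tsum_eq]
    congr 1
    unfold W' tz
    refine tsum_congr fun x => ?_
    simp only [w0]
    exact mul_assoc _ _ _
  have hor : ∀ x ∈ L, ∀ x' ∈ L, ‖∑ r ∈ X, ca K r x' * (starRingEnd ℂ) (ca K r x)‖ ≤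
      if x' - x ∈ L' then Nf K f else 0 := by
    intro x hx x' hx'
    have h1 : ∑ r ∈ X, ca K r x' * (starRingEnd ℂ) (ca K r x) =
        ∑ r ∈ X, Pool.Agent.H69.RC.ex (r * (x' - x)) := by
      refine Finset.sum_congr rfl fun r _ => ?_
      have h2 : (starRingEnd ℂ) (ca K r x) = Pool.Agent.H69.RC.ex (-(r * x)) :=
        Pool.Agent.H48.RC.conj_ex (r * x)
      rw [h2]
      have h3 : r * (x' - x) = r * x' + -(r * x) := by ring
      rw [h3, Pool.Agent.H48.RC.ex_add']
      rfl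
    rw [h1, Pool.Agent.H48.RC.ortho (L := L') (N := M) (M := L) hL' hM hL'2.symm rfl hfM rfl hX
      (Pool.Agent.H69.RC.fsub hx' hx)]
    split_ifs
    · rw [Complex.norm_natCast]
      exact rep_card_le f M hf hM X hX
    · simp
  have key := dual_pair L L' hLL y (β / 2) (β ^ (-(n / 2))) (Nf K f) (by positivity)
    (by positivity) hNf.le w (if_pos rfl) hwb (fun c hc => hs L hL c hc)
    (fun c hc => hs L' hL' c hc) X (fun r x => ca K r x) (fun r _ x _ => (hcan r x).le) hor
  have e0 : ∑ r ∈ X, ‖W' K S f M r φ z T - d1 K S‖ ^ 2 =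
      ∑ r ∈ X, ‖∑' x : {x : K // x ∈ L}, ca K r x * w x‖ ^ 2 :=
    Finset.sum_congr rfl fun r _ => by rw [hD r]
  rw [e0]
  refine key.trans ?_
  have e1 : (β ^ (-(n / 2))) ^ 2 = β ^ (-n) := by
    rw [← Real.rpow_natCast, ← Real.rpow_mul hβ0.le]
    congr 1
    push_cast
    ring
  have e2 : FT K L (-z) (T * b) =
      ∑' x : {x : K // x ∈ L}, Real.exp (-Real.pi * (β / 6 * qK K y x)) := by
    rw [← FT_eq_tsum hYC L hL (-z) _ (β / 6) hTc (by positivity), ← hn, ← hb, hcvL]
    congr 1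
    field_simp
  have e3 : FT K L' (-z) (T * b * Nf K f) =
      ∑' x : {x : K // x ∈ L'}, Real.exp (-Real.pi * (β / 6 * qK K y x)) := by
    rw [← FT_eq_tsum hYC L' hL' (-z) _ (β / 6) hTc (by positivity), ← hn, ← hb, hcvL', hcf]
    congr 1
    field_simp
  have e4 : ∑' x : {x : K // x ∈ L}, Real.exp (-Real.pi * (β / 2 / 2 * qK K y x)) ≤
      FT K L (-z) (T * b) := by
    rw [e2]
    refine Summable.tsum_le_tsum (fun x => Real.exp_le_exp.mpr ?_)
      (hs L hL _ (by positivity)) (hs L hL _ (by positivity))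
    have := qK_nonneg y (x : K)
    have h1 : β / 6 * qK K y x ≤ β / 2 / 2 * qK K y x :=
      mul_le_mul_of_nonneg_right (by linarith) this
    nlinarith [Real.pi_pos]
  have e5 : ∑' l : {x : K // x ∈ L'}, Real.exp (-Real.pi * (β / 2 / 3 * qK K y l)) =
      FT K L' (-z) (T * b * Nf K f) := by
    rw [e3]
    refine tsum_congr fun x => ?_
    congr 3
    ring
  rw [e1, e5]
  have h6 : 0 ≤ FT K L' (-z) (T * b * Nf K f) := by
    rw [e3]
    exact tsum_nonneg fun x => (Real.exp_pos _).le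
  have h7 : 0 < β ^ (-n) := Real.rpow_pos_of_pos hβ0 _
  have h8 : (∑' x : {x : K // x ∈ L}, Real.exp (-Real.pi * (β / 2 / 2 * qK K y x)) - 1) *
      FT K L' (-z) (T * b * Nf K f) ≤
      (FT K L (-z) (T * b) - 1) * FT K L' (-z) (T * b * Nf K f) :=
    mul_le_mul_of_nonneg_right (by linarith) h6
  have h9 := mul_le_mul_of_nonneg_left h8 (by positivity : 0 ≤ Nf K f * β ^ (-n))
  refine h9.trans (le_of_eq ?_)
  ring

end Pool.Agent.H61.GLA
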