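import Pool.Agent.H61.GLA.Int2
import Pool.Agent.H23.LB.Tools
import Pool.Agent.H16.HK.GS
import Pool.Agent.H16.HK.PO
import Pool.Agent.H16.HK.PS
import Pool.Agent.H3.HK.GA

/-!
# Positive definite forms and lattices
-/

set_option autoImplicit false

open MeasureTheory Set Filter Module
open scoped Matrix RealInnerProductSpace ENNReal

namespace Pool.Agent.H61.GLA

open Pool.Agent.H25.HK Pool.Agent.H23.LB Pool.Agent.H61.MV

variable {ι : Type} [Fintype ι] [DecidableEq ι]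

theorem po' : T_PO :=
  Pool.Agent.H16.HK.po Pool.Agent.H16.HK.ps Pool.Agent.H3.HK.ga Pool.Agent.H16.HK.gs

lemma qf_eq (A : Matrix ι ι ℝ) (x : ι → ℝ) :
    qf (A.transpose * A) x = ‖(WithLp.toLp 2 (A.mulVec x) : EuclideanSpace ℝ ι)‖ ^ 2 := by
  have h1 : qf (A.transpose * A) x = x ⬝ᵥ ((A.transpose * A).mulVec x) := by
    unfold qf
    simp only [dotProduct, Matrix.mulVec, Finset.mul_sum]
    exact Finset.sum_congr rfl fun i _ => Finset.sum_congr rfl fun j _ => by ring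
  rw [h1, ← Matrix.mulVec_mulVec, Matrix.dotProduct_mulVec, Matrix.vecMul_transpose,
    EuclideanSpace.norm_sq_eq]
  simp only [dotProduct, Real.norm_eq_abs, sq_abs]
  exact Finset.sum_congr rfl fun i _ => by ring

lemma qf_vc (A : Matrix ι ι ℝ) (n : ι → ℤ) :
    qf (A.transpose * A) (fun i => (n i : ℝ)) = ‖vc A n‖ ^ 2 := qf_eq A _

lemma inv_eq (A : Matrix ι ι ℝ) : (A.transpose * A)⁻¹ = (dm A).transpose * dm A := by
  unfold dm
  rw [Matrix.mul_inv_rev, Matrix.transpose_transpose, Matrix.transpose_nonsing_inv]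

lemma posdef (A : Matrix ι ι ℝ) (hA : A.det ≠ 0) : (A.transpose * A).PosDef := by
  have h := Matrix.PosDef.conjTranspose_mul_self A
    (Matrix.mulVec_injective_iff_isUnit.mpr ((Matrix.isUnit_iff_isUnit_det A).mpr (isUnit_iff_ne_zero.mpr hA)))
  simpa using h

open scoped MatrixOrder in
lemma root0 (P : Matrix ι ι ℝ) (hP : P.PosDef) : ∃ A : Matrix ι ι ℝ, P = A.transpose * A := by
  obtain ⟨A, hA⟩ := CStarAlgebra.nonneg_iff_eq_star_mul_self.mp hP.posSemidef.nonneg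
  refine ⟨A, ?_⟩
  rw [hA, Matrix.star_eq_conjTranspose, Matrix.conjTranspose_eq_transpose_of_trivial]

lemma root (P : Matrix ι ι ℝ) (hP : P.PosDef) (hd : P.det = 1) :
    ∃ A : Matrix ι ι ℝ, A.det ≠ 0 ∧ |A.det| = 1 ∧ P = A.transpose * A := by
  obtain ⟨A, hA⟩ := root0 P hP
  have h1 : A.det * A.det = 1 := by
    rw [← hd, hA, Matrix.det_mul, Matrix.det_transpose]
  refine ⟨A, left_ne_zero_of_mul_eq_one h1, ?_, hA⟩
  have h2 : |A.det| * |A.det| = 1 := by rw [← abs_mul, h1, abs_one]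
  have h3 := abs_nonneg A.det
  nlinarith

lemma Fs_eq (A : Matrix ι ι ℝ) (T : ℝ) :
    Fs (A.transpose * A) T = Th A (T ^ ((2 : ℝ) / Fintype.card ι)) := by
  unfold Fs Th qz
  simp only [qf_vc]

lemma vc_smul (c : ℝ) (A : Matrix ι ι ℝ) (n : ι → ℤ) : vc (c • A) n = c • vc A n := by
  unfold vc
  rw [Matrix.smul_mulVec, WithLp.toLp_smul]

lemma Th_smul (c : ℝ) (A : Matrix ι ι ℝ) (u : ℝ) : Th (c • A) u = Th A (c ^ 2 * u) := by
  unfold Th
  refine tsum_congr fun n => ?_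
  rw [vc_smul, norm_smul, mul_pow, Real.norm_eq_abs, sq_abs]
  congr 2
  ring

lemma poi : Poi := by
  intro ι _ _ A hA r hr
  have hr' : r⁻¹ ≠ 0 := inv_ne_zero hr.ne'
  have hB : (r⁻¹ • A).det ≠ 0 := by
    rw [Matrix.det_smul]
    exact mul_ne_zero (pow_ne_zero _ hr') hA
  have h := (po' ι ((r⁻¹ • A).transpose * (r⁻¹ • A)) (posdef _ hB)).2
  rw [inv_eq] at h
  simp only [qf_vc] at h
  have e1 : ∑' m : ι → ℤ, Real.exp (-Real.pi * ‖vc (r⁻¹ • A) m‖ ^ 2) = Th A (1 / r ^ 2) := by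
    have := Th_smul r⁻¹ A 1
    unfold Th at this
    simp only [one_mul, mul_one] at this
    rw [this]
    unfold Th
    rw [inv_pow, one_div]
  have e2 : dm (r⁻¹ • A) = r • dm A := by
    unfold dm
    rw [← Matrix.transpose_smul]
    congr 1
    refine Matrix.inv_eq_left_inv ?_
    rw [Matrix.smul_mul, Matrix.mul_smul, Matrix.nonsing_inv_mul _ (isUnit_iff_ne_zero.mpr hA),
      smul_smul, mul_inv_cancel₀ hr.ne', one_smul]
  have e3 : ∑' m : ι → ℤ, Real.exp (-Real.pi * ‖vc (dm (r⁻¹ • A)) m‖ ^ 2) = Th (dm A) (r ^ 2) := by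
    have := Th_smul r (dm A) 1
    unfold Th at this
    simp only [one_mul, mul_one] at this
    rw [e2, this]
    rfl
  rw [e1, e3, Matrix.det_mul, Matrix.det_transpose, Real.sqrt_mul_self_eq_abs,
    Matrix.det_smul, abs_mul, abs_pow, abs_of_pos (inv_pos.mpr hr), mul_inv, inv_pow,
    inv_inv] at h
  exact h

/-- the constant in the formula for the Epstein zeta function -/
noncomputable def cG (m : ℕ) (κ : ℝ) : ℝ :=
  Real.pi ^ (-(κ + 1) / ((2 : ℝ) / m)) * (1 / ((2 : ℝ) / m)) * Real.Gamma ((κ + 1) / ((2 : ℝ) / m))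

lemma cG_pos (m : ℕ) (hm : 0 < m) (κ : ℝ) (hκ : 0 < κ) : 0 < cG m κ := by
  have hm' : (0 : ℝ) < m := by exact_mod_cast hm
  unfold cG
  have h1 : 0 < (κ + 1) / ((2 : ℝ) / m) := by positivity
  have h2 := Real.Gamma_pos_of_pos h1
  have h3 : 0 < Real.pi ^ (-(κ + 1) / ((2 : ℝ) / m)) := Real.rpow_pos_of_pos Real.pi_pos _
  positivity

lemma one_term (m : ℕ) (hm : 0 < m) (κ : ℝ) (hκ : 0 < κ) (v : ℝ) (hv : 0 < v) :
    IntegrableOn (fun T : ℝ => Real.exp (-Real.pi * (T ^ ((2 : ℝ) / m) * v ^ 2)) * T ^ κ) (Ioi 0) ∧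
    ∫ T in Ioi (0 : ℝ), Real.exp (-Real.pi * (T ^ ((2 : ℝ) / m) * v ^ 2)) * T ^ κ =
      cG m κ * v ^ (-((m : ℝ) * (1 + κ))) := by
  have hm' : (0 : ℝ) < m := by exact_mod_cast hm
  have hp : 0 < (2 : ℝ) / m := by positivity
  have hb : 0 < Real.pi * v ^ 2 := by positivity
  have h := integral_rpow_mul_exp_neg_mul_rpow hp (by linarith : -1 < κ) hb
  have e1 : (fun T : ℝ => Real.exp (-Real.pi * (T ^ ((2 : ℝ) / m) * v ^ 2)) * T ^ κ) =
      fun x : ℝ => x ^ κ * Real.exp (-(Real.pi * v ^ 2) * x ^ ((2 : ℝ) / m)) := by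
    funext T
    rw [mul_comm]
    congr 2
    ring
  have e2 : (Real.pi * v ^ 2) ^ (-(κ + 1) / ((2 : ℝ) / m)) * (1 / ((2 : ℝ) / m)) *
      Real.Gamma ((κ + 1) / ((2 : ℝ) / m)) = cG m κ * v ^ (-((m : ℝ) * (1 + κ))) := by
    unfold cG
    rw [Real.mul_rpow Real.pi_pos.le (by positivity), ← Real.rpow_natCast v 2,
      ← Real.rpow_mul hv.le]
    have e3 : ((2 : ℕ) : ℝ) * (-(κ + 1) / ((2 : ℝ) / m)) = -((m : ℝ) * (1 + κ)) := by
      push_cast
      field_simp
      ring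
    rw [e3]
    ring
  rw [e2] at h
  rw [e1]
  refine ⟨?_, h⟩
  by_contra hc
  have h0 := integral_undef hc
  rw [h] at h0
  have h1 := cG_pos m hm κ hκ
  have h2 : 0 < v ^ (-((m : ℝ) * (1 + κ))) := Real.rpow_pos_of_pos hv _
  exact (mul_pos h1 h2).ne' h0

lemma Ep_pos [Nonempty ι] (σ : ℝ) (hσ : 1 < σ) (A : Matrix ι ι ℝ) (hA : A.det ≠ 0) :
    0 < Ep σ A := lt_of_lt_of_le (Real.rpow_pos_of_pos (l1_pos A hA) _) (l1_rpow_le σ hσ A hA)

theorem gt_int [Nonempty ι] (κ : ℝ) (hκ : 0 < κ) (A : Matrix ι ι ℝ) (hA : A.det ≠ 0) :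
    IntegrableOn (fun T : ℝ => gt A T * T ^ κ) (Ioi 0) ∧
    ∫ T in Ioi (0 : ℝ), gt A T * T ^ κ = cG (Fintype.card ι) κ * Ep (1 + κ) A := by
  have hm : 0 < Fintype.card ι := Fintype.card_pos
  have hcG := cG_pos _ hm κ hκ
  let F : (ι → ℤ) → ℝ → ℝ := fun n T => if n = 0 then 0 else
    Real.exp (-Real.pi * (T ^ ((2 : ℝ) / Fintype.card ι) * ‖vc A n‖ ^ 2)) * T ^ κ
  have hv : ∀ n : ι → ℤ, n ≠ 0 → 0 < ‖vc A n‖ := fun n hn => by
    rw [norm_pos_iff]
    exact fun h => hn (vc_inj A hA n h)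
  have hF1 : ∀ n, Integrable (F n) (volume.restrict (Ioi 0)) := by
    intro n
    by_cases hn : n = 0
    · have : F n = fun _ => 0 := by
        funext T
        simp [F, hn]
      rw [this]
      exact integrable_zero _ _ _
    · have : F n = fun T => Real.exp (-Real.pi * (T ^ ((2 : ℝ) / Fintype.card ι) *
          ‖vc A n‖ ^ 2)) * T ^ κ := by
        funext T
        simp [F, hn]
      rw [this]
      exact (one_term _ hm κ hκ _ (hv n hn)).1
  have hF2 : ∀ n, ∫ T in Ioi (0 : ℝ), F n T = cG (Fintype.card ι) κ *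
      (if n = 0 then 0 else ‖vc A n‖ ^ (-((Fintype.card ι : ℝ) * (1 + κ)))) := by
    intro n
    by_cases hn : n = 0
    · simp [F, hn]
    · simp only [F, if_neg hn]
      exact (one_term _ hm κ hκ _ (hv n hn)).2
  have hF3 : ∀ n, ∫ T in Ioi (0 : ℝ), ‖F n T‖ = cG (Fintype.card ι) κ *
      (if n = 0 then 0 else ‖vc A n‖ ^ (-((Fintype.card ι : ℝ) * (1 + κ)))) := by
    intro n
    rw [← hF2 n]
    refine setIntegral_congr_fun measurableSet_Ioi fun T hT => ?_
    have hT' : (0 : ℝ) < T := hT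
    refine Real.norm_of_nonneg ?_
    simp only [F]
    split_ifs
    · exact le_rfl
    · positivity
  have hs := (summable_Ep (1 + κ) (by linarith) A hA).mul_left (cG (Fintype.card ι) κ)
  have h := hasSum_integral_of_summable_integral_norm hF1 (by simpa only [hF3] using hs)
  simp only [hF2] at h
  have h1 := h.tsum_eq
  rw [tsum_mul_left] at h1
  have h2 : ∫ T in Ioi (0 : ℝ), gt A T * T ^ κ = ∫ T in Ioi (0 : ℝ), ∑' n, F n T := by
    refine setIntegral_congr_fun measurableSet_Ioi fun T hT => ?_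
    have hT' : (0 : ℝ) < T := hT
    simp only [F]
    unfold gt
    rw [Th_sub_one A hA _ (Real.rpow_pos_of_pos hT' _), ← tsum_mul_right]
    refine tsum_congr fun n => ?_
    split_ifs
    · exact zero_mul _
    · rfl
  have h3 : ∫ T in Ioi (0 : ℝ), gt A T * T ^ κ = cG (Fintype.card ι) κ * Ep (1 + κ) A := by
    rw [h2, ← h1]
    rfl
  refine ⟨?_, h3⟩
  by_contra hc
  have h0 := integral_undef hc
  rw [h3] at h0
  exact (mul_pos hcG (Ep_pos (1 + κ) (by linarith) A hA)).ne' h0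

theorem AF_eq [Nonempty ι] (κ : ℝ) (hκ : 0 < κ) (A : Matrix ι ι ℝ) (hA : A.det ≠ 0) :
    AF κ (A.transpose * A) = cG (Fintype.card ι) κ * Ep (1 + κ) A := by
  rw [← (gt_int κ hκ A hA).2]
  unfold AF gt
  simp only [Fs_eq]

/-- (LF) -/
theorem pf_LF' [Nonempty ι] (κ : ℝ) (hκ : 0 < κ) (A : Matrix ι ι ℝ) (hA : |A.det| = 1) :
    1 / (κ * (κ + 1)) ≤ AF κ (A.transpose * A) := by
  have hA' : A.det ≠ 0 := by
    intro h
    rw [h] at hA
    simp at hA
  have hm : (0 : ℝ) < Fintype.card ι := by exact_mod_cast Fintype.card_pos (α := ι)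
  have hint := (gt_int κ hκ A hA').1
  have h0 : AF κ (A.transpose * A) = ∫ T in Ioi (0 : ℝ), gt A T * T ^ κ := by
    unfold AF gt
    simp only [Fs_eq]
  rw [h0]
  have hnn : 0 ≤ᵐ[volume.restrict (Ioi (0 : ℝ))] fun T => gt A T * T ^ κ := by
    refine (ae_restrict_iff' measurableSet_Ioi).mpr (Eventually.of_forall fun T hT => ?_)
    exact mul_nonneg (gt_nonneg A hA' T hT) (Real.rpow_nonneg (le_of_lt hT) _)
  have h1 : ∫ T in Ioc (0 : ℝ) 1, gt A T * T ^ κ ≤ ∫ T in Ioi (0 : ℝ), gt A T * T ^ κ :=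
    setIntegral_mono_set hint hnn (Ioc_subset_Ioi_self).eventuallyLE
  refine le_trans ?_ h1
  have hI : IntervalIntegrable (fun T : ℝ => T ^ (κ - 1) - T ^ κ) volume 0 1 :=
    (intervalIntegral.intervalIntegrable_rpow' (by linarith)).sub
      (intervalIntegral.intervalIntegrable_rpow' (by linarith))
  have h2 : ∫ T in (0 : ℝ)..1, (T ^ (κ - 1) - T ^ κ) = 1 / (κ * (κ + 1)) := by
    rw [intervalIntegral.integral_sub (intervalIntegral.intervalIntegrable_rpow' (by linarith))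
      (intervalIntegral.intervalIntegrable_rpow' (by linarith)),
      integral_rpow (Or.inl (by linarith)), integral_rpow (Or.inl (by linarith))]
    rw [Real.one_rpow, Real.one_rpow, Real.zero_rpow (by linarith), Real.zero_rpow (by linarith)]
    have : κ + 1 ≠ 0 := by positivity
    have e : κ - 1 + 1 = κ := by ring
    rw [e]
    field_simp
    ring
  rw [← h2, intervalIntegral.integral_of_le zero_le_one]
  refine setIntegral_mono_on ?_ (hint.mono_set Ioc_subset_Ioi_self) measurableSet_Ioc ?_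
  · rw [intervalIntegrable_iff_integrableOn_Ioc_of_le zero_le_one] at hI
    exact hI
  · intro T hT
    have hT0 : 0 < T := hT.1
    have h3 := poi ι A hA' (T ^ (-(1 / (Fintype.card ι : ℝ)))) (Real.rpow_pos_of_pos hT0 _)
    have e1 : 1 / (T ^ (-(1 / (Fintype.card ι : ℝ)))) ^ 2 = T ^ ((2 : ℝ) / Fintype.card ι) := by
      rw [← Real.rpow_natCast (T ^ (-(1 / (Fintype.card ι : ℝ)))) 2, ← Real.rpow_mul hT0.le,
        one_div, ← Real.rpow_neg hT0.le]
      congr 1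
      push_cast
      ring
    have e2 : (T ^ (-(1 / (Fintype.card ι : ℝ)))) ^ Fintype.card ι = T⁻¹ := by
      rw [← Real.rpow_natCast (T ^ (-(1 / (Fintype.card ι : ℝ)))), ← Real.rpow_mul hT0.le,
        ← Real.rpow_neg_one]
      congr 1
      field_simp
    rw [e1, e2, hA, inv_one, mul_one] at h3
    have h4 := one_le_Th (dm A) (det_dm_ne hA') ((T ^ (-(1 / (Fintype.card ι : ℝ)))) ^ 2)
      (by positivity)
    have h5 : T⁻¹ - 1 ≤ gt A T := by
      unfold gt
      rw [h3]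
      have : 0 < T⁻¹ := inv_pos.mpr hT0
      nlinarith
    have h6 : T ^ (κ - 1) - T ^ κ = (T⁻¹ - 1) * T ^ κ := by
      rw [Real.rpow_sub hT0, Real.rpow_one]
      field_simp
    rw [h6]
    exact mul_le_mul_of_nonneg_right h5 (Real.rpow_nonneg hT0.le _)

end Pool.Agent.H61.GLA
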