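import Pool.Agent.H61.GLA.H2

/-!
# The pair inequality
-/

set_option autoImplicit false

open NumberField NumberField.InfinitePlace NumberField.Units
  NumberField.Units.dirichletUnitTheorem MeasureTheory Set Filter Complex
open scoped nonZeroDivisors ENNReal

namespace Pool.Agent.H61.GLA

open Pool.Agent.H25.HK Pool.Agent.H28.RC Pool.Agent.H23.LB

/-- (H1) -/
theorem pf_H1 (hSM : T_SMc) (hTH : T_TH) (hYC : T_YC) : Pool.Agent.H23.LB.T_H1 := by
  classical
  intro K _ _ S f M X φ hf hM hX hφ z T b hT hb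
  set n : ℝ := (Module.finrank ℚ K : ℝ) with hn
  set β := Real.cos φ with hβ
  have hβ0 : 0 < β := Real.cos_pos_of_mem_Ioo ⟨by linarith [(abs_lt.mp hφ).1], (abs_lt.mp hφ).2⟩
  have hβ1 : β ≤ 1 := Real.cos_le_one φ
  have hf0 : (f : FI K) ≠ 0 := by
    rw [Ne, FractionalIdeal.coeIdeal_eq_zero]
    exact hf
  have hfM : (f : FI K) * M ≠ 0 := mul_ne_zero hf0 hM
  have hcf := cv_fmul f M
  have hcM := cv_pos' M hM
  have hcfM := cv_pos' _ hfM
  have hfMM : (f : FI K) * M ≤ M := by
    have : (f : FI K) * M ≤ 1 * M := by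
      gcongr
      exact FractionalIdeal.coeIdeal_le_one
    rwa [one_mul] at this
  have hNf : 0 < Nf K f := by
    have h1 : cv K ((f : FI K) * M) / cv K M = Nf K f := by
      rw [hcf]
      field_simp
    rw [← h1]
    positivity
  set y := yc K (Real.log (T / cv K ((f : FI K) * M))) z with hy
  have hTc : 0 < T / cv K ((f : FI K) * M) := by positivity
  -- summability
  have hs : ∀ (N : FI K), N ≠ 0 → ∀ c : ℝ, 0 < c → Summable fun x : {x : K // x ∈ N} =>
      Real.exp (-Real.pi * (c * qK K y x)) := by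
    intro N hN c hc
    have h1 := (hTH K N hN (fun v => y v + Real.log c)).1
    refine h1.congr fun x => ?_
    rw [qK_shift y c hc]
  -- the terms
  set ζ : ℂ := φ * I with hζ
  let w0 : K → ℂ := fun x => ((ws K S y x : ℝ) : ℂ) *
    (cexp (ζ * S.card / 2) * cexp (-Real.pi * (cexp ζ * ((qK K y x : ℝ) : ℂ))))
  let w : K → ℂ := fun x => if x = 0 then 0 else w0 x
  have hw0n : ∀ x, ‖w0 x‖ = |ws K S y x| * Real.exp (-Real.pi * (β * qK K y x)) := by
    intro x
    simp only [w0]
    rw [norm_mul, norm_mul, Complex.norm_real, Real.norm_eq_abs, Complex.norm_exp,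
      Complex.norm_exp]
    have e1 : (ζ * S.card / 2).re = 0 := by
      rw [hζ]
      simp
    have e2 : (-(Real.pi : ℂ) * (cexp ζ * ((qK K y x : ℝ) : ℂ))).re =
        -Real.pi * (β * qK K y x) := by
      have e3 : (cexp ζ).re = β := by
        rw [hζ, Complex.exp_re]
        simp [hβ]
      have e4 : -(Real.pi : ℂ) * (cexp ζ * ((qK K y x : ℝ) : ℂ)) =
          ((-Real.pi * qK K y x : ℝ) : ℂ) * cexp ζ := by
        push_cast
        ring
      rw [e4, Complex.re_ofReal_mul, e3]
      ring
    rw [e1, e2, Real.exp_zero, one_mul]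
  have hwb : ∀ x ∈ M, ‖w x‖ ≤ β ^ (-(n / 2)) * Real.exp (-Real.pi * (β / 2 * qK K y x)) := by
    intro x _
    by_cases hx : x = 0
    · simp only [w, if_pos hx, norm_zero]
      positivity
    · simp only [w, if_neg hx]
      rw [hw0n]
      exact term_bound hSM S M hM y β hβ0 hβ1 x
  have hw00 : ∀ r : K, ci K f M r 0 * w0 0 = d0 K S f M r := by
    intro r
    have hq : qK K y (0 : K) = 0 := by
      unfold qK
      simp
    have hmem : (0 : K) - r ∈ (f : FI K) * M ↔ r ∈ (f : FI K) * M := by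
      constructor
      · intro h
        have h1 := Pool.Agent.H69.RC.fsub (Pool.Agent.H69.RC.fzero _) h
        have h2 : (0 : K) - (0 - r) = r := by ring
        rwa [h2] at h1
      · intro h
        exact Pool.Agent.H69.RC.fsub (Pool.Agent.H69.RC.fzero _) h
    simp only [w0]
    rw [hq]
    by_cases hS : S = ∅
    · unfold d0 ci
      rw [hS]
      unfold ws
      by_cases hr : r ∈ (f : FI K) * M
      · rw [if_pos (hmem.2 hr), if_pos ⟨rfl, hr⟩]
        simp
      · rw [if_neg (fun h => hr (hmem.1 h)), if_neg (fun h => hr h.2), zero_mul]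
    · have hd : d0 K S f M r = 0 := by
        unfold d0
        rw [if_neg (fun h => hS h.1)]
      rw [hd]
      obtain ⟨v, hv⟩ := Finset.nonempty_iff_ne_empty.mpr hS
      have : ws K S y (0 : K) = 0 := by
        unfold ws
        refine Finset.prod_eq_zero hv ?_
        unfold Pool.Agent.H28.RC.re
        simp
      rw [this]
      simp
  have hcin : ∀ r x : K, ‖ci K f M r x‖ ≤ 1 := by
    intro r x
    unfold ci
    split_ifs <;> simp
  have hsw0 : ∀ r, Summable fun x : {x : K // x ∈ M} => ci K f M r x * w0 x := by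
    intro r
    refine Summable.of_norm ?_
    refine Summable.of_nonneg_of_le (fun _ => norm_nonneg _) (fun x => ?_)
      ((hs M hM (β / 2) (by positivity)).mul_left (β ^ (-(n / 2))))
    rw [norm_mul]
    have h1 : ‖w0 x‖ ≤ β ^ (-(n / 2)) * Real.exp (-Real.pi * (β / 2 * qK K y x)) := by
      rw [hw0n]
      exact term_bound hSM S M hM y β hβ0 hβ1 x
    have h2 := mul_le_mul (hcin r x) h1 (norm_nonneg _) zero_le_one
    rwa [one_mul] at h2
  have hD : ∀ r, W K S f M r φ z T - d0 K S f M r =
      ∑' x : {x : K // x ∈ M}, ci K f M r x * w x := by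
    intro r
    have h1 := (hsw0 r).hasSum
    have h2 := hasSum_ite_eq (⟨0, (M : Submodule (𝓞 K) K).zero_mem⟩ : {x : K // x ∈ M})
      (d0 K S f M r)
    have h3 : HasSum (fun x : {x : K // x ∈ M} => ci K f M r x * w x)
        ((∑' x : {x : K // x ∈ M}, ci K f M r x * w0 x) - d0 K S f M r) := by
      refine (h1.sub h2).congr_fun ?_ |> id
      intro x
      by_cases hx : (x : K) = 0
      · have hx' : x = (⟨0, (M : Submodule (𝓞 K) K).zero_mem⟩ : {x : K // x ∈ M}) :=
          Subtype.ext hx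
        rw [if_pos hx', hx]
        simp only [w, if_true, mul_zero]
        rw [hw00, sub_self]
      · have hx' : x ≠ (⟨0, (M : Submodule (𝓞 K) K).zero_mem⟩ : {x : K // x ∈ M}) :=
          fun h => hx (congrArg Subtype.val h)
        rw [if_neg hx', sub_zero]
        simp only [w, if_neg hx]
    rw [h3.tsum_eq]
    congr 1
    unfold W tz
    refine tsum_congr fun x => ?_
    simp only [w0]
    exact mul_assoc _ _ _
  have hor : ∀ x ∈ M, ∀ x' ∈ M, ‖∑ r ∈ X, ci K f M r x' * (starRingEnd ℂ) (ci K f M r x)‖ ≤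
      if x' - x ∈ (f : FI K) * M then (1 : ℝ) else 0 := by
    intro x hx x' hx'
    obtain ⟨r₀, ⟨hr1, hr2⟩, hu⟩ := hX.2 x hx
    have h1 : ∑ r ∈ X, ci K f M r x' * (starRingEnd ℂ) (ci K f M r x) =
        ci K f M r₀ x' * (starRingEnd ℂ) (ci K f M r₀ x) := by
      refine Finset.sum_eq_single_of_mem r₀ hr1 fun r hr hne => ?_
      have h2 : ci K f M r x = 0 := by
        unfold ci
        rw [if_neg]
        intro h
        exact hne (hu r ⟨hr, h⟩)
      rw [h2, map_zero, mul_zero]
    rw [h1]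
    split_ifs with h
    · rw [norm_mul, RCLike.norm_conj]
      exact mul_le_one₀ (hcin _ _) (norm_nonneg _) (hcin _ _)
    · have h2 : ci K f M r₀ x' = 0 := by
        unfold ci
        rw [if_neg]
        intro h3
        refine h ?_
        have h4 : x' - x = (x' - r₀) - (x - r₀) := by ring
        rw [h4]
        exact Pool.Agent.H69.RC.fsub h3 hr2
      rw [h2, zero_mul, norm_zero]
  have key := dual_pair M ((f : FI K) * M) hfMM y (β / 2) (β ^ (-(n / 2))) 1 (by positivity)
    (by positivity) zero_le_one w (if_pos rfl) hwb (fun c hc => hs M hM c hc)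
    (fun c hc => hs _ hfM c hc) X (fun r x => ci K f M r x) (fun r _ x _ => hcin r x) hor
  have e0 : ∑ r ∈ X, ‖W K S f M r φ z T - d0 K S f M r‖ ^ 2 =
      ∑ r ∈ X, ‖∑' x : {x : K // x ∈ M}, ci K f M r x * w x‖ ^ 2 :=
    Finset.sum_congr rfl fun r _ => by rw [hD r]
  rw [e0]
  refine key.trans ?_
  have e1 : (β ^ (-(n / 2))) ^ 2 = β ^ (-n) := by
    rw [← Real.rpow_natCast, ← Real.rpow_mul hβ0.le]
    congr 1
    push_cast
    ring
  have e2 : FT K M z (T * b / Nf K f) =
      ∑' x : {x : K // x ∈ M}, Real.exp (-Real.pi * (β / 6 * qK K y x)) := by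
    rw [← FT_eq_tsum hYC M hM z _ (β / 6) hTc (by positivity), ← hn, ← hb, hcf]
    congr 1
    field_simp
  have e3 : FT K ((f : FI K) * M) z (T * b) =
      ∑' x : {x : K // x ∈ (f : FI K) * M}, Real.exp (-Real.pi * (β / 6 * qK K y x)) := by
    rw [← FT_eq_tsum hYC _ hfM z _ (β / 6) hTc (by positivity), ← hn, ← hb]
    congr 1
    field_simp
  have e4 : ∑' x : {x : K // x ∈ M}, Real.exp (-Real.pi * (β / 2 / 2 * qK K y x)) ≤
      FT K M z (T * b / Nf K f) := by
    rw [e2]
    refine Summable.tsum_le_tsum (fun x => Real.exp_le_exp.mpr ?_)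
      (hs M hM _ (by positivity)) (hs M hM _ (by positivity))
    have := qK_nonneg y (x : K)
    have h1 : β / 6 * qK K y x ≤ β / 2 / 2 * qK K y x :=
      mul_le_mul_of_nonneg_right (by linarith) this
    nlinarith [Real.pi_pos]
  have e5 : ∑' l : {x : K // x ∈ (f : FI K) * M}, Real.exp (-Real.pi * (β / 2 / 3 * qK K y l)) =
      FT K ((f : FI K) * M) z (T * b) := by
    rw [e3]
    refine tsum_congr fun x => ?_
    congr 3
    ring
  rw [e1, e5, one_mul]
  have h6 : 0 ≤ FT K ((f : FI K) * M) z (T * b) := by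
    rw [e3]
    exact tsum_nonneg fun x => (Real.exp_pos _).le
  have h7 : 0 < β ^ (-n) := Real.rpow_pos_of_pos hβ0 _
  exact mul_le_mul_of_nonneg_left (mul_le_mul_of_nonneg_right (by linarith) h6) h7.le

end Pool.Agent.H61.GLA
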