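import Pool.Agent.H23.LB.Targets
import Pool.Agent.H48.RC.CN

/-!
# A pair inequality for exponential sums over lattices
-/

set_option autoImplicit false

open NumberField NumberField.InfinitePlace NumberField.Units
  NumberField.Units.dirichletUnitTheorem MeasureTheory Set Filter Complex
open scoped nonZeroDivisors ENNReal

namespace Pool.Agent.H61.GLA

open Pool.Agent.H25.HK Pool.Agent.H28.RC Pool.Agent.H23.LB

variable {K : Type} [Field K] [NumberField K]

lemma qK_nonneg (y : InfinitePlace K → ℝ) (x : K) : 0 ≤ qK K y x := by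
  unfold qK
  exact Finset.sum_nonneg fun v _ => by positivity

lemma q_ineq (y : InfinitePlace K → ℝ) (x l : K) :
    qK K y l / 3 ≤ qK K y x / 2 + qK K y (x + l) := by
  unfold qK
  rw [Finset.sum_div, Finset.sum_div, ← Finset.sum_add_distrib]
  refine Finset.sum_le_sum fun v _ => ?_
  have h1 : v l ≤ v (x + l) + v x := by
    have h2 : l = (x + l) + -x := by ring
    have h3 : v (-x) = v x := v.1.map_neg x
    calc v l = v ((x + l) + -x) := by rw [← h2]
      _ ≤ v (x + l) + v (-x) := v.1.add_le _ _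
      _ = v (x + l) + v x := by rw [h3]
  have h2 : 0 ≤ v l := apply_nonneg v l
  have h3 : 0 ≤ v x := apply_nonneg v x
  have h4 : 0 ≤ v (x + l) := apply_nonneg v (x + l)
  have h5 : (v l) ^ 2 ≤ 3 / 2 * (v x) ^ 2 + 3 * (v (x + l)) ^ 2 := by
    have h6 : (v l) ^ 2 ≤ (v (x + l) + v x) ^ 2 := pow_le_pow_left₀ h2 h1 2
    nlinarith [sq_nonneg (2 * v (x + l) - v x)]
  have h6 : 0 ≤ (v.mult : ℝ) * Real.exp (y v) := by positivity
  have h7 := mul_le_mul_of_nonneg_left h5 h6
  nlinarith

lemma card_le (S : Finset (RP K)) : S.card ≤ Module.finrank ℚ K := by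
  classical
  have h1 := card_add_two_mul_card_eq_rank K
  have h2 : S.card ≤ nrRealPlaces K := Finset.card_le_univ S
  omega

lemma qK_shift (y : InfinitePlace K → ℝ) (c : ℝ) (hc : 0 < c) (x : K) :
    qK K (fun v => y v + Real.log c) x = c * qK K y x := by
  unfold qK
  rw [Finset.mul_sum]
  refine Finset.sum_congr rfl fun v _ => ?_
  rw [Real.exp_add, Real.exp_log hc]
  ring

lemma ws_shift (S : Finset (RP K)) (y : InfinitePlace K → ℝ) (c : ℝ) (hc : 0 < c) (x : K) :
    ws K S (fun v => y v + Real.log c) x = Real.sqrt c ^ S.card * ws K S y x := by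
  unfold ws
  have h : ∀ v ∈ S, Real.exp ((y v.1 + Real.log c) / 2) * re v x =
      Real.sqrt c * (Real.exp (y v.1 / 2) * re v x) := by
    intro v _
    have e : (y v.1 + Real.log c) / 2 = y v.1 / 2 + Real.log c / 2 := by ring
    rw [e, Real.exp_add, ← Real.log_sqrt hc.le, Real.exp_log (Real.sqrt_pos.mpr hc)]
    ring
  rw [Finset.prod_congr rfl h, Finset.prod_mul_distrib, Finset.prod_const]

/-- the bound for one term -/
lemma term_bound (hSM : T_SMc) (S : Finset (RP K)) (M : FI K) (hM : M ≠ 0)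
    (y : InfinitePlace K → ℝ) (β : ℝ) (hβ : 0 < β) (hβ1 : β ≤ 1) (x : K) :
    |ws K S y x| * Real.exp (-Real.pi * (β * qK K y x)) ≤
      β ^ (-((Module.finrank ℚ K : ℝ) / 2)) * Real.exp (-Real.pi * (β / 2 * qK K y x)) := by
  have h := (hSM K S M hM (fun v => y v + Real.log β)).2 x
  have h1 : (fun v : InfinitePlace K => y v + Real.log β - Real.log 2) =
      fun v => y v + Real.log (β / 2) := by
    funext v
    rw [Real.log_div hβ.ne' two_ne_zero]
    ring
  rw [h1, qK_shift y β hβ, qK_shift y (β / 2) (by positivity), ws_shift S y β hβ, abs_mul,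
    abs_of_nonneg (by positivity), mul_assoc] at h
  have hs : 0 < Real.sqrt β ^ S.card := pow_pos (Real.sqrt_pos.mpr hβ) _
  have h2 : |ws K S y x| * Real.exp (-Real.pi * (β * qK K y x)) ≤
      (Real.sqrt β ^ S.card)⁻¹ * Real.exp (-Real.pi * (β / 2 * qK K y x)) := by
    rw [← div_eq_inv_mul, le_div_iff₀ hs]
    linarith
  refine h2.trans (mul_le_mul_of_nonneg_right ?_ (Real.exp_pos _).le)
  have h3 : (Real.sqrt β ^ S.card)⁻¹ = β ^ (-((S.card : ℝ) / 2)) := by
    rw [Real.sqrt_eq_rpow, ← Real.rpow_natCast, ← Real.rpow_mul hβ.le, ← Real.rpow_neg hβ.le]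
    congr 1
    ring
  rw [h3]
  refine Real.rpow_le_rpow_of_exponent_ge hβ hβ1 ?_
  have h4 : (S.card : ℝ) ≤ Module.finrank ℚ K := by exact_mod_cast card_le S
  linarith

open scoped Classical in
/-- the pair inequality -/
theorem dual_pair (L L' : FI K) (hLL : L' ≤ L) (y : InfinitePlace K → ℝ) (a B N : ℝ)
    (ha : 0 < a) (hB : 0 ≤ B) (hN : 0 ≤ N) (w : K → ℂ) (hw0 : w 0 = 0)
    (hw : ∀ x ∈ L, ‖w x‖ ≤ B * Real.exp (-Real.pi * (a * qK K y x)))
    (hsL : ∀ c : ℝ, 0 < c → Summable fun x : {x : K // x ∈ L} =>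
      Real.exp (-Real.pi * (c * qK K y x)))
    (hsL' : ∀ c : ℝ, 0 < c → Summable fun x : {x : K // x ∈ L'} =>
      Real.exp (-Real.pi * (c * qK K y x)))
    (X : Finset K) (e : K → K → ℂ) (he : ∀ r ∈ X, ∀ x ∈ L, ‖e r x‖ ≤ 1)
    (hor : ∀ x ∈ L, ∀ x' ∈ L, ‖∑ r ∈ X, e r x' * (starRingEnd ℂ) (e r x)‖ ≤
      if x' - x ∈ L' then N else 0) :
    ∑ r ∈ X, ‖∑' x : {x : K // x ∈ L}, e r x * w x‖ ^ 2 ≤
      N * B ^ 2 * (((∑' x : {x : K // x ∈ L}, Real.exp (-Real.pi * (a / 2 * qK K y x))) - 1) *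
        ∑' l : {x : K // x ∈ L'}, Real.exp (-Real.pi * (a / 3 * qK K y l))) := by
  have hadd : ∀ x ∈ L, ∀ l ∈ L', x + l ∈ L := fun x hx l hl =>
    (L : Submodule (𝓞 K) K).add_mem hx (hLL hl)
  have hsw : Summable fun x : {x : K // x ∈ L} => ‖w x‖ :=
    Summable.of_nonneg_of_le (fun _ => norm_nonneg _) (fun x => hw x x.2)
      ((hsL a ha).mul_left B)
  have hse : ∀ r ∈ X, Summable fun x : {x : K // x ∈ L} => ‖e r x * w x‖ := by
    intro r hr
    refine Summable.of_nonneg_of_le (fun _ => norm_nonneg _) (fun x => ?_) hsw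
    rw [norm_mul]
    have := he r hr x x.2
    nlinarith [norm_nonneg (w x)]
  set D : K → ℂ := fun r => ∑' x : {x : K // x ∈ L}, e r x * w x with hD
  -- the inner sums
  have hswl : ∀ x : {x : K // x ∈ L}, Summable fun l : {x : K // x ∈ L'} =>
      ‖w (x + l)‖ := by
    intro x
    let g : {x : K // x ∈ L'} → {x : K // x ∈ L} := fun l =>
      ⟨(x : K) + (l : K), hadd x x.2 l l.2⟩
    have hg : Function.Injective g := by
      intro l l' h
      have h1 : (x : K) + (l : K) = (x : K) + (l' : K) := congrArg Subtype.val h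
      exact Subtype.ext (add_left_cancel h1)
    have h2 := hsw.comp_injective hg
    have h3 : ((fun x : {x : K // x ∈ L} => ‖w (x : K)‖) ∘ g) =
        fun l : {x : K // x ∈ L'} => ‖w ((x : K) + (l : K))‖ := by
      funext l
      rfl
    rwa [h3] at h2
  have inner : ∀ x : {x : K // x ∈ L}, ‖∑ r ∈ X, D r * (starRingEnd ℂ) (e r x)‖ ≤
      N * ∑' l : {x : K // x ∈ L'}, ‖w (x + l)‖ := by
    intro x
    have h1 : ∑ r ∈ X, D r * (starRingEnd ℂ) (e r x) =
        ∑' x' : {x : K // x ∈ L}, (∑ r ∈ X, e r x' * (starRingEnd ℂ) (e r x)) * w x' := by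
      have h2 : ∀ r ∈ X, D r * (starRingEnd ℂ) (e r x) =
          ∑' x' : {x : K // x ∈ L}, e r x' * w x' * (starRingEnd ℂ) (e r x) := by
        intro r _
        rw [tsum_mul_right]
      rw [Finset.sum_congr rfl h2, ← Summable.tsum_finsetSum]
      · refine tsum_congr fun x' => ?_
        rw [Finset.sum_mul]
        exact Finset.sum_congr rfl fun r _ => by ring
      · intro r hr
        exact ((hse r hr).of_norm).mul_right _
    have hle : ∀ x' : {x : K // x ∈ L},
        ‖(∑ r ∈ X, e r x' * (starRingEnd ℂ) (e r x)) * w x'‖ ≤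
        (if (x' : K) - x ∈ L' then N * ‖w x'‖ else 0) := by
      intro x'
      rw [norm_mul]
      have h3 := hor x x.2 x' x'.2
      split_ifs at h3 ⊢
      · exact mul_le_mul_of_nonneg_right h3 (norm_nonneg _)
      · have h4 : ‖∑ r ∈ X, e r x' * (starRingEnd ℂ) (e r x)‖ = 0 :=
          le_antisymm h3 (norm_nonneg _)
        rw [h4, zero_mul]
    have hs2 : Summable fun x' : {x : K // x ∈ L} =>
        (if (x' : K) - x ∈ L' then N * ‖w x'‖ else 0) := by
      refine Summable.of_nonneg_of_le (fun x' => ?_) (fun x' => ?_) (hsw.mul_left N)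
      · split_ifs <;> positivity
      · split_ifs
        · exact le_rfl
        · positivity
    rw [h1]
    refine (tsum_of_norm_bounded hs2.hasSum hle).trans (le_of_eq ?_)
    let g : {x : K // x ∈ L'} → {x : K // x ∈ L} := fun l =>
      ⟨(x : K) + (l : K), hadd x x.2 l l.2⟩
    have hg : Function.Injective g := by
      intro l l' h
      have h1 : (x : K) + (l : K) = (x : K) + (l' : K) := congrArg Subtype.val h
      exact Subtype.ext (add_left_cancel h1)
    have hval : ∀ l, ((g l : {x : K // x ∈ L}) : K) = (x : K) + (l : K) := fun l => rfl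
    rw [← hg.tsum_eq, ← tsum_mul_left]
    · refine tsum_congr fun l => ?_
      have h3 : (x : K) + (l : K) - (x : K) = (l : K) := by ring
      rw [hval, h3, if_pos l.2]
    · intro x' hx'
      rw [Function.mem_support] at hx'
      by_cases h3 : (x' : K) - x ∈ L'
      · refine ⟨⟨(x' : K) - x, h3⟩, ?_⟩
        apply Subtype.ext
        show (x : K) + ((x' : K) - x) = x'
        ring
      · exact absurd (if_neg h3) hx'
  -- the outer sum
  have hout : ∑ r ∈ X, (starRingEnd ℂ) (D r) * D r =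
      ∑' x : {x : K // x ∈ L}, (starRingEnd ℂ) (∑ r ∈ X, D r * (starRingEnd ℂ) (e r x)) *
        w x := by
    have h2 : ∀ r ∈ X, (starRingEnd ℂ) (D r) * D r =
        ∑' x : {x : K // x ∈ L}, (starRingEnd ℂ) (D r) * (e r x * w x) := by
      intro r _
      rw [tsum_mul_left]
    rw [Finset.sum_congr rfl h2, ← Summable.tsum_finsetSum]
    · refine tsum_congr fun x => ?_
      rw [map_sum, Finset.sum_mul]
      refine Finset.sum_congr rfl fun r _ => ?_
      rw [map_mul, Complex.conj_conj]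
      ring
    · intro r hr
      exact ((hse r hr).of_norm).mul_left _
  have hsum : ∑ r ∈ X, ‖D r‖ ^ 2 = ‖∑ r ∈ X, (starRingEnd ℂ) (D r) * D r‖ := by
    have h3 : ∑ r ∈ X, (starRingEnd ℂ) (D r) * D r = ((∑ r ∈ X, ‖D r‖ ^ 2 : ℝ) : ℂ) := by
      push_cast
      refine Finset.sum_congr rfl fun r _ => ?_
      rw [mul_comm, Complex.mul_conj, Complex.normSq_eq_norm_sq]
      push_cast
      rfl
    rw [h3, Complex.norm_real, Real.norm_of_nonneg]
    exact Finset.sum_nonneg fun r _ => by positivity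
  -- the pointwise bound
  have hpt : ∀ x : {x : K // x ∈ L},
      ‖(starRingEnd ℂ) (∑ r ∈ X, D r * (starRingEnd ℂ) (e r x)) * w x‖ ≤
      (if (x : K) = 0 then 0 else Real.exp (-Real.pi * (a / 2 * qK K y x))) *
        (N * B ^ 2 * ∑' l : {x : K // x ∈ L'}, Real.exp (-Real.pi * (a / 3 * qK K y l))) := by
    intro x
    by_cases hx : (x : K) = 0
    · rw [if_pos hx, hx, hw0]
      simp
    rw [if_neg hx, norm_mul, RCLike.norm_conj]
    have h3 := inner x
    have h4 : ‖w x‖ * ∑' l : {x : K // x ∈ L'}, ‖w (x + l)‖ ≤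
        B ^ 2 * (Real.exp (-Real.pi * (a / 2 * qK K y x)) *
          ∑' l : {x : K // x ∈ L'}, Real.exp (-Real.pi * (a / 3 * qK K y l))) := by
      rw [← tsum_mul_left, ← tsum_mul_left, ← tsum_mul_left]
      refine Summable.tsum_le_tsum (fun l => ?_) ((hswl x).mul_left _)
        (((hsL' (a / 3) (by positivity)).mul_left _).mul_left _)
      have h5 := hw x x.2
      have h6 := hw (x + l) (hadd x x.2 l l.2)
      have h7 := mul_le_mul h5 h6 (norm_nonneg _) (by positivity)
      refine h7.trans ?_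
      have h8 : B * Real.exp (-Real.pi * (a * qK K y x)) *
          (B * Real.exp (-Real.pi * (a * qK K y (x + l)))) =
          B ^ 2 * Real.exp (-Real.pi * (a * qK K y x) + -Real.pi * (a * qK K y (x + l))) := by
        rw [Real.exp_add]
        ring
      rw [h8, ← Real.exp_add]
      refine mul_le_mul_of_nonneg_left (Real.exp_le_exp.mpr ?_) (by positivity)
      have h9 := q_ineq y (x : K) l
      have h10 : a * (qK K y l / 3) ≤ a * (qK K y x / 2 + qK K y (x + l)) :=
        mul_le_mul_of_nonneg_left h9 ha.le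
      nlinarith [Real.pi_pos]
    have h5 : ‖∑ r ∈ X, D r * (starRingEnd ℂ) (e r x)‖ * ‖w x‖ ≤
        N * (‖w x‖ * ∑' l : {x : K // x ∈ L'}, ‖w (x + l)‖) := by
      have := mul_le_mul_of_nonneg_right h3 (norm_nonneg (w x))
      linarith
    refine h5.trans ((mul_le_mul_of_nonneg_left h4 hN).trans (le_of_eq ?_))
    ring
  have h0 : ∀ c : ℝ, Real.exp (-Real.pi * (c * qK K y (0 : K))) = 1 := by
    intro c
    have : qK K y (0 : K) = 0 := by
      unfold qK
      simp
    rw [this]
    simp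
  have hs0 : HasSum (fun x : {x : K // x ∈ L} => if (x : K) = 0 then (0 : ℝ) else
      Real.exp (-Real.pi * (a / 2 * qK K y x)))
      ((∑' x : {x : K // x ∈ L}, Real.exp (-Real.pi * (a / 2 * qK K y x))) - 1) := by
    have h1 := (hsL (a / 2) (by positivity)).hasSum
    have h2 := hasSum_ite_eq (⟨0, (L : Submodule (𝓞 K) K).zero_mem⟩ : {x : K // x ∈ L}) (1 : ℝ)
    refine (h1.sub h2).congr_fun ?_ |> id
    intro x
    by_cases hx : (x : K) = 0
    · have hx' : x = (⟨0, (L : Submodule (𝓞 K) K).zero_mem⟩ : {x : K // x ∈ L}) :=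
        Subtype.ext hx
      rw [if_pos hx, if_pos hx', hx, h0]
      ring
    · have hx' : x ≠ (⟨0, (L : Submodule (𝓞 K) K).zero_mem⟩ : {x : K // x ∈ L}) :=
        fun h => hx (congrArg Subtype.val h)
      rw [if_neg hx, if_neg hx', sub_zero]
  show ∑ r ∈ X, ‖D r‖ ^ 2 ≤ _
  rw [hsum, hout]
  refine (tsum_of_norm_bounded (hs0.mul_right _) hpt).trans (le_of_eq ?_)
  ring

end Pool.Agent.H61.GLA
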