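import Pool.Agent.H61.GLA.BR


/-!
# Integrals of theta functions of two unimodular lattices
-/

set_option autoImplicit false

open MeasureTheory Set Filter Module
open scoped Matrix RealInnerProductSpace ENNReal

namespace Pool.Agent.H61.GLA

open Pool.Agent.H25.HK Pool.Agent.H23.LB Pool.Agent.H61.MV

lemma rpow_le_mul (D E p : ℝ) (hD : 1 ≤ D) (hE : 1 ≤ D * E) (hp : 0 ≤ p) (hp1 : p ≤ 1) :
    E ^ p ≤ D * E := by
  have hD0 : 0 < D := by linarith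
  have hE0 : 0 < E := by
    by_contra h
    push Not at h
    nlinarith
  have h1 : E ^ p = (D * E) ^ p * D ^ (-p) := by
    rw [Real.mul_rpow hD0.le hE0.le, Real.rpow_neg hD0.le]
    have : D ^ p ≠ 0 := (Real.rpow_pos_of_pos hD0 p).ne'
    field_simp
  have h2 : (D * E) ^ p ≤ D * E := by
    have := Real.rpow_le_rpow_of_exponent_le hE hp1
    rwa [Real.rpow_one] at this
  have h3 : D ^ (-p) ≤ 1 := Real.rpow_le_one_of_one_le_of_nonpos hD (by linarith)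
  have h4 : 0 < (D * E) ^ p := Real.rpow_pos_of_pos (by linarith) p
  have h5 : 0 < D ^ (-p) := Real.rpow_pos_of_pos hD0 _
  rw [h1]
  nlinarith

lemma core (σ D N EP EQ x y z : ℝ) (hσ : 1 < σ) (hD : 1 ≤ D) (hN : 1 ≤ N) (hP : 1 ≤ D * EP)
    (hQ : 1 ≤ D * EQ) (hy0 : 0 ≤ y) (hz0 : 0 ≤ z)
    (hx : x ≤ N + 2 * (N ^ (1 / 2 : ℝ) * EP ^ (1 / (2 * σ))))
    (hy : y ≤ 1 + 2 * EQ ^ (1 / (2 * σ))) (hz : z ≤ EQ) :
    x * (y ^ (1 / σ) * z ^ (1 - 1 / σ)) ≤ 9 * D ^ 2 * (N * EQ + N ^ σ * EP) := by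
  have hD0 : 0 < D := by linarith
  have hP0 : 0 < EP := by
    by_contra h
    push Not at h
    nlinarith
  have hQ0 : 0 < EQ := by
    by_contra h
    push Not at h
    nlinarith
  have hσ0 : 0 < σ := by linarith
  have hs0 : 0 < 1 / σ := by positivity
  have hs1 : 1 / σ ≤ 1 := by
    rw [div_le_one hσ0]
    exact hσ.le
  set a := 1 / (2 * σ) with ha
  have ha0 : 0 < a := by positivity
  have ha2 : a = 1 / σ / 2 := by
    rw [ha]
    field_simp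
  have ha1 : a ≤ 1 := by linarith
  -- y
  have hy1 : y ≤ 3 * D * EQ ^ a := by
    have h1 : 1 ≤ D * EQ ^ a := by
      have h2 : 1 ≤ (D * EQ) ^ a := Real.one_le_rpow hQ ha0.le
      rw [Real.mul_rpow hD0.le hQ0.le] at h2
      have h3 : D ^ a ≤ D := by
        have := Real.rpow_le_rpow_of_exponent_le hD ha1
        rwa [Real.rpow_one] at this
      have h4 : 0 < EQ ^ a := Real.rpow_pos_of_pos hQ0 _
      nlinarith
    have h4 : 0 < EQ ^ a := Real.rpow_pos_of_pos hQ0 _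
    nlinarith
  have hy2 : y ^ (1 / σ) ≤ 3 * D * EQ ^ (a * (1 / σ)) := by
    have h1 := Real.rpow_le_rpow hy0 hy1 hs0.le
    rw [Real.mul_rpow (by positivity) (by positivity), ← Real.rpow_mul hQ0.le] at h1
    have h2 : (3 * D) ^ (1 / σ) ≤ 3 * D := by
      have := Real.rpow_le_rpow_of_exponent_le (by linarith : 1 ≤ 3 * D) hs1
      rwa [Real.rpow_one] at this
    exact h1.trans (mul_le_mul_of_nonneg_right h2 (by positivity))
  have hz1 : z ^ (1 - 1 / σ) ≤ EQ ^ (1 - 1 / σ) := Real.rpow_le_rpow hz0 hz (by linarith)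
  set e := a * (1 / σ) + (1 - 1 / σ) with he
  have he0 : 0 ≤ e := by
    have := mul_pos ha0 hs0
    linarith
  have haσ : a * (1 / σ) ≤ a := by nlinarith
  have he1 : a + e ≤ 1 := by linarith
  have hyz : y ^ (1 / σ) * z ^ (1 - 1 / σ) ≤ 3 * D * EQ ^ e := by
    have h1 := mul_le_mul hy2 hz1 (by positivity) (by positivity)
    rw [mul_assoc, ← Real.rpow_add hQ0] at h1
    exact h1
  have hN0 : 0 < N := by linarith
  have hN1 : N ^ (1 / 2 : ℝ) ≤ N := by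
    have := Real.rpow_le_rpow_of_exponent_le hN (by norm_num : (1 / 2 : ℝ) ≤ 1)
    rwa [Real.rpow_one] at this
  have hx1 : x ≤ N * (1 + 2 * EP ^ a) := by
    have h1 : 0 < EP ^ a := Real.rpow_pos_of_pos hP0 _
    nlinarith
  have h1 : x * (y ^ (1 / σ) * z ^ (1 - 1 / σ)) ≤ N * (1 + 2 * EP ^ a) * (3 * D * EQ ^ e) :=
    mul_le_mul hx1 hyz (by positivity) (by positivity)
  have h2 : EQ ^ e ≤ D * EQ := rpow_le_mul D EQ e hD hQ he0 (by linarith)
  have h3 : EP ^ a * EQ ^ e ≤ D * (EP + EQ) := by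
    have h4 : EP ^ a ≤ (EP + EQ) ^ a := Real.rpow_le_rpow hP0.le (by linarith) ha0.le
    have h5 : EQ ^ e ≤ (EP + EQ) ^ e := Real.rpow_le_rpow hQ0.le (by linarith) he0
    have h6 := mul_le_mul h4 h5 (by positivity) (by positivity)
    rw [← Real.rpow_add (by linarith)] at h6
    refine h6.trans (rpow_le_mul D (EP + EQ) (a + e) hD ?_ (by linarith) he1)
    nlinarith
  have h4 : N ≤ N ^ σ := by
    have := Real.rpow_le_rpow_of_exponent_le hN hσ.le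
    rwa [Real.rpow_one] at this
  have h5 : N * (1 + 2 * EP ^ a) * (3 * D * EQ ^ e) =
      3 * D * N * (EQ ^ e + 2 * (EP ^ a * EQ ^ e)) := by ring
  rw [h5] at h1
  refine h1.trans ?_
  have h6 : EQ ^ e + 2 * (EP ^ a * EQ ^ e) ≤ 3 * D * (EP + EQ) := by nlinarith
  have h7 : 3 * D * N * (EQ ^ e + 2 * (EP ^ a * EQ ^ e)) ≤ 3 * D * N * (3 * D * (EP + EQ)) :=
    mul_le_mul_of_nonneg_left h6 (by positivity)
  refine h7.trans ?_
  have h8 : N * EP ≤ N ^ σ * EP := mul_le_mul_of_nonneg_right h4 hP0.le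
  have h9 : 3 * D * N * (3 * D * (EP + EQ)) = 9 * D ^ 2 * (N * EQ + N * EP) := by ring
  rw [h9]
  refine mul_le_mul_of_nonneg_left ?_ (by positivity)
  linarith

variable {ι : Type} [Fintype ι] [DecidableEq ι]

lemma l1_smul [Nonempty ι] (c : ℝ) (hc : 0 < c) (A : Matrix ι ι ℝ) (hA : A.det ≠ 0) :
    l1 (c • A) = c * l1 A := by
  have hcA : (c • A).det ≠ 0 := by
    rw [Matrix.det_smul]
    exact mul_ne_zero (pow_ne_zero _ hc.ne') hA
  have hn : ∀ n : ι → ℤ, ‖vc (c • A) n‖ = c * ‖vc A n‖ := fun n => by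
    rw [vc_smul, norm_smul, Real.norm_of_nonneg hc.le]
  refine le_antisymm ?_ ?_
  · obtain ⟨n, hn0, h⟩ := l1_attained A hA
    rw [← h, ← hn]
    exact l1_le _ n hn0
  · obtain ⟨n, hn0, h⟩ := l1_attained (c • A) hcA
    rw [← h, hn]
    exact mul_le_mul_of_nonneg_left (l1_le _ n hn0) hc.le

lemma Ep_smul (c : ℝ) (hc : 0 < c) (σ : ℝ) (A : Matrix ι ι ℝ) :
    Ep σ (c • A) = c ^ (-((Fintype.card ι : ℝ) * σ)) * Ep σ A := by
  unfold Ep
  rw [← tsum_mul_left]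
  refine tsum_congr fun n => ?_
  rw [vc_smul, norm_smul, Real.norm_of_nonneg hc.le, Real.mul_rpow hc.le (norm_nonneg _)]
  split_ifs
  · rw [mul_zero]
  · rfl

lemma dm_smul (c : ℝ) (hc : c ≠ 0) (A : Matrix ι ι ℝ) (hA : A.det ≠ 0) :
    dm (c • A) = c⁻¹ • dm A := by
  unfold dm
  rw [← Matrix.transpose_smul]
  congr 1
  refine Matrix.inv_eq_left_inv ?_
  rw [Matrix.smul_mul, Matrix.mul_smul, Matrix.nonsing_inv_mul _ (isUnit_iff_ne_zero.mpr hA),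
    smul_smul, inv_mul_cancel₀ hc, one_smul]

lemma l1_half [Nonempty ι] (σ : ℝ) (hσ : 1 < σ) (A : Matrix ι ι ℝ) (hA : A.det ≠ 0) (E : ℝ)
    (hE : Ep σ A ≤ E) : l1 A ^ (-((Fintype.card ι : ℝ) / 2)) ≤ E ^ (1 / (2 * σ)) := by
  have hl := l1_pos A hA
  have h1 := (l1_rpow_le σ hσ A hA).trans hE
  have h2 := Real.rpow_le_rpow (Real.rpow_nonneg hl.le _) h1
    (by positivity : (0 : ℝ) ≤ 1 / (2 * σ))
  rw [← Real.rpow_mul hl.le] at h2
  have e : -((Fintype.card ι : ℝ) * σ) * (1 / (2 * σ)) = -((Fintype.card ι : ℝ) / 2) := by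
    have : σ ≠ 0 := by linarith
    field_simp
  rwa [e] at h2

lemma rpow_half (m : ℕ) (hm : 0 < m) (N x : ℝ) (hN : 0 < N) (hx : 0 < x) :
    (N ^ (-(1 / (m : ℝ))) * x) ^ (-((m : ℝ) / 2)) = N ^ (1 / 2 : ℝ) * x ^ (-((m : ℝ) / 2)) ∧
    ((N ^ (-(1 / (m : ℝ))))⁻¹ * x) ^ (-((m : ℝ) / 2)) =
      N ^ (-(1 / 2 : ℝ)) * x ^ (-((m : ℝ) / 2)) := by
  have hm' : (0 : ℝ) < m := by exact_mod_cast hm
  constructor
  · rw [Real.mul_rpow (by positivity) hx.le, ← Real.rpow_mul hN.le]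
    congr 2
    field_simp
  · rw [Real.mul_rpow (by positivity) hx.le, ← Real.rpow_neg hN.le, ← Real.rpow_mul hN.le]
    congr 2
    field_simp

/-- bounds for `xx` -/
lemma xx_bound [Nonempty ι] (σ : ℝ) (hσ : 1 < σ) (A : Matrix ι ι ℝ) (hA : |A.det| = 1) (N : ℝ)
    (hN : 1 ≤ N) (E : ℝ) (h1 : Ep σ A ≤ E) (h2 : Ep σ (dm A) ≤ E) :
    xx ((N ^ (-(1 / (Fintype.card ι : ℝ)))) • A) ≤
      N + 2 * (N ^ (1 / 2 : ℝ) * E ^ (1 / (2 * σ))) ∧
    N * xx ((N ^ (-(1 / (Fintype.card ι : ℝ))))⁻¹ • dm A) ≤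
      N + 2 * (N ^ (1 / 2 : ℝ) * E ^ (1 / (2 * σ))) := by
  have hA' : A.det ≠ 0 := by
    intro h
    rw [h] at hA
    simp at hA
  have hN0 : 0 < N := by linarith
  have hm : 0 < Fintype.card ι := Fintype.card_pos
  have hm' : (0 : ℝ) < Fintype.card ι := by exact_mod_cast hm
  have hdA := det_dm_ne hA'
  have hdA1 : |(dm A).det| = 1 := by rw [det_dm, abs_inv, hA, inv_one]
  set c := N ^ (-(1 / (Fintype.card ι : ℝ))) with hc
  have hc0 : 0 < c := Real.rpow_pos_of_pos hN0 _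
  have hcm : c ^ Fintype.card ι = N⁻¹ := by
    rw [hc, ← Real.rpow_natCast, ← Real.rpow_mul hN0.le, ← Real.rpow_neg_one]
    congr 1
    field_simp
  have hl := l1_half σ hσ A hA' E h1
  have hl' := l1_half σ hσ (dm A) hdA E h2
  have r1 := rpow_half _ hm N (l1 A) hN0 (l1_pos A hA')
  have r2 := rpow_half _ hm N (l1 (dm A)) hN0 (l1_pos _ hdA)
  rw [← hc] at r1 r2
  have hNh : 0 < N ^ (1 / 2 : ℝ) := Real.rpow_pos_of_pos hN0 _
  have hNN : N * N ^ (-(1 / 2 : ℝ)) = N ^ (1 / 2 : ℝ) := by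
    have : N * N ^ (-(1 / 2 : ℝ)) = N ^ (1 : ℝ) * N ^ (-(1 / 2 : ℝ)) := by rw [Real.rpow_one]
    rw [this, ← Real.rpow_add hN0]
    norm_num
  constructor
  · unfold xx al
    rw [Matrix.det_smul, abs_mul, hA, mul_one, abs_pow, abs_of_pos hc0, hcm, inv_inv,
      l1_smul c hc0 A hA', dm_smul c hc0.ne' A hA', l1_smul c⁻¹ (inv_pos.mpr hc0) _ hdA, r1.1,
      r2.2, div_inv_eq_mul]
    have e : N ^ (-(1 / 2 : ℝ)) * l1 (dm A) ^ (-((Fintype.card ι : ℝ) / 2)) * N =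
        N ^ (1 / 2 : ℝ) * l1 (dm A) ^ (-((Fintype.card ι : ℝ) / 2)) := by
      rw [← hNN]
      ring
    rw [e]
    have h3 := mul_le_mul_of_nonneg_left hl hNh.le
    have h4 := mul_le_mul_of_nonneg_left hl' hNh.le
    linarith
  · unfold xx al
    have hdet : |(c⁻¹ • dm A).det| = N := by
      rw [Matrix.det_smul, abs_mul, hdA1, mul_one, abs_pow, abs_of_pos (inv_pos.mpr hc0),
        inv_pow, hcm, inv_inv]
    rw [hdet, l1_smul c⁻¹ (inv_pos.mpr hc0) _ hdA, dm_smul c⁻¹ (inv_ne_zero hc0.ne') _ hdA,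
      inv_inv, dm_dm hA', l1_smul c hc0 A hA', r1.1, r2.2]
    have e : N * (N⁻¹ + (N ^ (-(1 / 2 : ℝ)) * l1 (dm A) ^ (-((Fintype.card ι : ℝ) / 2)) +
        N ^ (1 / 2 : ℝ) * l1 A ^ (-((Fintype.card ι : ℝ) / 2)) / N)) =
        1 + N * N ^ (-(1 / 2 : ℝ)) * l1 (dm A) ^ (-((Fintype.card ι : ℝ) / 2)) +
        N ^ (1 / 2 : ℝ) * l1 A ^ (-((Fintype.card ι : ℝ) / 2)) := by
      field_simp
      ring
    rw [e, hNN]
    have h3 := mul_le_mul_of_nonneg_left hl hNh.le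
    have h4 := mul_le_mul_of_nonneg_left hl' hNh.le
    linarith

lemma Fs_div (A : Matrix ι ι ℝ) (N b T : ℝ) (hN : 0 < N) (hb : 0 < b) (hT : 0 < T) :
    Fs (A.transpose * A) (T * b / N) =
      gt ((N ^ (-(1 / (Fintype.card ι : ℝ)))) • A) (b * T) + 1 := by
  unfold gt
  rw [Fs_eq, Th_smul, sub_add_cancel]
  congr 1
  rw [Real.div_rpow (by positivity) hN.le, div_eq_inv_mul, ← Real.rpow_neg hN.le,
    ← Real.rpow_natCast, ← Real.rpow_mul hN.le, mul_comm T b]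
  congr 2
  push_cast
  ring

lemma Fs_mul (A : Matrix ι ι ℝ) (N b T : ℝ) (hN : 0 < N) (hb : 0 < b) (hT : 0 < T) :
    Fs ((dm A).transpose * dm A) (T * b * N) =
      gt ((N ^ (-(1 / (Fintype.card ι : ℝ))))⁻¹ • dm A) (b * T) + 1 := by
  unfold gt
  rw [Fs_eq, Th_smul, sub_add_cancel]
  congr 1
  rw [Real.mul_rpow (by positivity) hN.le, mul_comm, ← Real.rpow_neg hN.le,
    ← Real.rpow_natCast, ← Real.rpow_mul hN.le, mul_comm T b]
  congr 2
  push_cast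
  ring

lemma Fs_one (A : Matrix ι ι ℝ) (b T : ℝ) :
    Fs (A.transpose * A) (T * b) = gt A (b * T) + 1 := by
  unfold gt
  rw [Fs_eq, sub_add_cancel, mul_comm T b]

end Pool.Agent.H61.GLA
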