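import Pool.Agent.H61.GLA.MS

/-!
# Integrals of theta functions of two unimodular lattices: dependence on `κ`
-/

set_option autoImplicit false

open MeasureTheory Set Filter Module
open scoped Matrix RealInnerProductSpace ENNReal

namespace Pool.Agent.H61.GLA

open Pool.Agent.H25.HK Pool.Agent.H23.LB Pool.Agent.H61.MV

variable {ι : Type} [Fintype ι] [DecidableEq ι]

/-- the constant in `ms0` -/
noncomputable def CM (n : ℕ) (κ : ℝ) : ℝ :=
  (D2 n κ * (9 * (1 + κ * (κ + 1) * cG n κ) ^ 2) + C3 n (1 + κ) * (2 / κ)) / cG n κ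

/-- the bound with an explicit constant -/
theorem ms0 (n : ℕ) (hn : 0 < n) (κ : ℝ) (hκ : 0 < κ) (hκ1 : κ ≤ 1) :
    ∀ (ι : Type) [Fintype ι]
    [DecidableEq ι] (P Q : Matrix ι ι ℝ), P.PosDef → Q.PosDef → P.det = 1 → Q.det = 1 →
    Fintype.card ι = n → ∀ N b : ℝ, 1 ≤ N → 0 < b → b ≤ 1 →
    (IntegrableOn (fun T => (Fs P (T * b / N) - 1) * Fs Q (T * b) * T ^ (κ / 2)) (Ioi 1) ∧
    ∫ T in Ioi (1 : ℝ), (Fs P (T * b / N) - 1) * Fs Q (T * b) * T ^ (κ / 2) ≤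
      CM n κ * b ^ (-(3 : ℝ)) * (N * (AF κ Q + AF κ Q⁻¹) + N ^ (1 + κ) * (AF κ P + AF κ P⁻¹))) ∧
    (IntegrableOn (fun T => N * ((Fs Q⁻¹ (T * b) - 1) * Fs P⁻¹ (T * b * N)) * T ^ (κ / 2))
      (Ioi 1) ∧
    ∫ T in Ioi (1 : ℝ), N * ((Fs Q⁻¹ (T * b) - 1) * Fs P⁻¹ (T * b * N)) * T ^ (κ / 2) ≤
      CM n κ * b ^ (-(3 : ℝ)) *
        (N * (AF κ Q + AF κ Q⁻¹) + N ^ (1 + κ) * (AF κ P + AF κ P⁻¹))) := by
  set G := cG n κ with hG
  have hG0 : 0 < G := cG_pos n hn κ hκ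
  set D := 1 + κ * (κ + 1) * G with hD
  have hD1 : 1 ≤ D := by
    have : 0 < κ * (κ + 1) * G := by positivity
    linarith
  have hCM : CM n κ = (D2 n κ * (9 * D ^ 2) + C3 n (1 + κ) * (2 / κ)) / G := rfl
  rw [hCM]
  intro ι _ _ P Q hP hQ hdP hdQ hι N b hN hb hb1
  have hne : Nonempty ι := by
    rw [← Fintype.card_pos_iff, hι]
    exact hn
  obtain ⟨A, hA0, hA, rfl⟩ := root P hP hdP
  obtain ⟨B, hB0, hB, rfl⟩ := root Q hQ hdQ
  have hN0 : 0 < N := by linarith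
  have hdA := det_dm_ne hA0
  have hdB := det_dm_ne hB0
  have hdA1 : |(dm A).det| = 1 := by rw [det_dm, abs_inv, hA, inv_one]
  have hdB1 : |(dm B).det| = 1 := by rw [det_dm, abs_inv, hB, inv_one]
  rw [inv_eq, inv_eq]
  have aA := AF_eq κ hκ A hA0
  have aA' := AF_eq κ hκ (dm A) hdA
  have aB := AF_eq κ hκ B hB0
  have aB' := AF_eq κ hκ (dm B) hdB
  have lA := pf_LF' κ hκ A hA
  have lB := pf_LF' κ hκ B hB
  rw [hι, ← hG] at aA aA' aB aB'
  rw [aA] at lA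
  rw [aB] at lB
  rw [aA, aA', aB, aB']
  set σ := 1 + κ with hσ
  have hσ1 : 1 < σ := by linarith
  have pA := Ep_nonneg σ A
  have pA' := Ep_nonneg σ (dm A)
  have pB := Ep_nonneg σ B
  have pB' := Ep_nonneg σ (dm B)
  set EP := Ep σ A + Ep σ (dm A) with hEP
  set EQ := Ep σ B + Ep σ (dm B) with hEQ
  have key : ∀ E E' : ℝ, 0 ≤ E → 0 ≤ E' → 1 / (κ * (κ + 1)) ≤ G * E → 1 ≤ D * (E + E') := by
    intro E E' h0 h0' h
    rw [div_le_iff₀ (by positivity)] at h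
    have h1 : G * E * (κ * (κ + 1)) = κ * (κ + 1) * G * E := by ring
    have h2 : 0 ≤ κ * (κ + 1) * G * E' := by positivity
    rw [hD]
    nlinarith
  have hEP1 : 1 ≤ D * EP := key _ _ pA pA' lA
  have hEQ1 : 1 ≤ D * EQ := key _ _ pB pB' lB
  have hEP0 : 0 ≤ EP := by linarith
  have hEQ0 : 0 ≤ EQ := by linarith
  set c := N ^ (-(1 / (Fintype.card ι : ℝ))) with hc
  have hc0 : 0 < c := Real.rpow_pos_of_pos hN0 _
  have hcA := det_smul_ne c hc0.ne' A hA0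
  have hcA' := det_smul_ne c⁻¹ (inv_ne_zero hc0.ne') (dm A) hdA
  have xA := xx_bound σ hσ1 A hA N hN EP (by linarith) (by linarith)
  rw [← hc] at xA
  have yB : ∀ B' : Matrix ι ι ℝ, |B'.det| = 1 → Ep σ B' ≤ EQ → Ep σ (dm B') ≤ EQ →
      xx B' ≤ 1 + 2 * EQ ^ (1 / (2 * σ)) := by
    intro B' h1 h2 h3
    have h4 := (xx_bound σ hσ1 B' h1 1 le_rfl EQ h2 h3).1
    rw [Real.one_rpow, one_smul, Real.one_rpow, one_mul] at h4
    exact h4
  have yB1 := yB B hB (by linarith) (by linarith)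
  have yB2 := yB (dm B) hdB1 (by linarith) (by rw [dm_dm hB0]; linarith)
  have bp : ∀ p : ℝ, p ≤ 3 → b ^ (-p) ≤ b ^ (-(3 : ℝ)) := fun p hp =>
    Real.rpow_le_rpow_of_exponent_ge hb hb1 (by linarith)
  have bp1 := bp (2 + κ) (by linarith)
  have bp2 := bp σ (by linarith)
  have hD2 : 0 ≤ D2 n κ := by
    unfold D2
    have h1 := Ct_pos n
    have h2 := one_le_C3 n (1 + κ)
    positivity
  have hC3 : 0 ≤ C3 n σ := by linarith [one_le_C3 n σ]
  set Y := N * EQ + N ^ σ * EP with hY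
  have hY0 : 0 ≤ Y := by positivity
  have hfin : ∀ I₁ I₂ : ℝ, I₁ ≤ D2 n κ * (b ^ (-(3 : ℝ)) * (9 * D ^ 2 * Y)) →
      I₂ ≤ C3 n σ * (2 / κ) * (b ^ (-(3 : ℝ)) * Y) →
      I₁ + I₂ ≤ (D2 n κ * (9 * D ^ 2) + C3 n σ * (2 / κ)) / G * b ^ (-(3 : ℝ)) *
        (N * (G * Ep σ B + G * Ep σ (dm B)) + N ^ σ * (G * Ep σ A + G * Ep σ (dm A))) := by
    intro I₁ I₂ h1 h2
    have e : (D2 n κ * (9 * D ^ 2) + C3 n σ * (2 / κ)) / G * b ^ (-(3 : ℝ)) *
        (N * (G * Ep σ B + G * Ep σ (dm B)) + N ^ σ * (G * Ep σ A + G * Ep σ (dm A))) =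
        (D2 n κ * (9 * D ^ 2) + C3 n σ * (2 / κ)) * b ^ (-(3 : ℝ)) * Y := by
      rw [hY, hEP, hEQ]
      field_simp
    rw [e]
    linarith
  constructor
  · have h := pair κ hκ (c • A) B hcA hB0 b hb hb1
    have e : ∀ T ∈ Ioi (1 : ℝ), (Fs (A.transpose * A) (T * b / N) - 1) *
        Fs (B.transpose * B) (T * b) * T ^ (κ / 2) =
        gt (c • A) (b * T) * (gt B (b * T) + 1) * T ^ (κ / 2) := by
      intro T hT
      have hT0 : (0 : ℝ) < T := lt_trans one_pos hT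
      rw [Fs_div A N b T hN0 hb hT0, Fs_one, add_sub_cancel_right]
    refine ⟨(integrableOn_congr_fun e measurableSet_Ioi).mpr h.1, ?_⟩
    rw [setIntegral_congr_fun measurableSet_Ioi e, h.2]
    refine hfin _ _ ?_ ?_
    · have h2 := (J2 poi κ hκ (c • A) B hcA hB0 b hb hb1).2
      rw [hι] at h2
      refine h2.trans (mul_le_mul_of_nonneg_left ?_ hD2)
      have hx0 := xx_nonneg (c • A)
      have hy0 := xx_nonneg B
      have h3 := core σ D N EP EQ (xx (c • A)) (xx B) (Ep σ B) hσ1 hD1 hN hEP1 hEQ1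
        hy0 pB xA.1 yB1 (by linarith)
      exact mul_le_mul bp1 h3 (by positivity) (by positivity)
    · have h2 := (J1 κ hκ (c • A) hcA b hb).2
      rw [hι] at h2
      refine h2.trans (mul_le_mul_of_nonneg_left ?_ (by positivity))
      refine mul_le_mul bp2 ?_ (Ep_nonneg _ _) (by positivity)
      rw [Ep_smul c hc0, hc, ← Real.rpow_mul hN0.le]
      have e2 : -(1 / (Fintype.card ι : ℝ)) * -((Fintype.card ι : ℝ) * (1 + κ)) = σ := by
        have : (Fintype.card ι : ℝ) ≠ 0 := by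
          have := Fintype.card_pos (α := ι)
          positivity
        field_simp
        exact hσ
      rw [e2]
      have h3 : N ^ σ * Ep σ A ≤ N ^ σ * EP := mul_le_mul_of_nonneg_left (by linarith) (by positivity)
      have h4 : 0 ≤ N * EQ := by positivity
      linarith
  · have h := pair κ hκ (c⁻¹ • dm A) (dm B) hcA' hdB b hb hb1
    have h' := pair κ hκ (dm B) (c⁻¹ • dm A) hdB hcA' b hb hb1
    have e : ∀ T ∈ Ioi (1 : ℝ), N * ((Fs ((dm B).transpose * dm B) (T * b) - 1) *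
        Fs ((dm A).transpose * dm A) (T * b * N)) * T ^ (κ / 2) =
        N * (gt (dm B) (b * T) * (gt (c⁻¹ • dm A) (b * T) + 1) * T ^ (κ / 2)) := by
      intro T hT
      have hT0 : (0 : ℝ) < T := lt_trans one_pos hT
      rw [Fs_mul A N b T hN0 hb hT0, Fs_one, add_sub_cancel_right]
      ring
    refine ⟨(integrableOn_congr_fun e measurableSet_Ioi).mpr (h'.1.const_mul N), ?_⟩
    rw [setIntegral_congr_fun measurableSet_Ioi e, integral_const_mul, h'.2, mul_add]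
    refine hfin _ _ ?_ ?_
    · have h2 := (J2 poi κ hκ (c⁻¹ • dm A) (dm B) hcA' hdB b hb hb1).2
      rw [hι] at h2
      have e3 : ∫ t in Ioi (1 : ℝ), gt (dm B) (b * t) * gt (c⁻¹ • dm A) (b * t) * t ^ (κ / 2) =
          ∫ t in Ioi (1 : ℝ), gt (c⁻¹ • dm A) (b * t) * gt (dm B) (b * t) * t ^ (κ / 2) := by
        refine setIntegral_congr_fun measurableSet_Ioi fun t _ => ?_
        ring
      rw [e3]
      have h4 := mul_le_mul_of_nonneg_left h2 hN0.le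
      refine h4.trans ?_
      have hx0 := xx_nonneg (c⁻¹ • dm A)
      have hy0 := xx_nonneg (dm B)
      have h3 := core σ D N EP EQ (N * xx (c⁻¹ • dm A)) (xx (dm B)) (Ep σ (dm B)) hσ1 hD1 hN hEP1
        hEQ1 hy0 pB' xA.2 yB2 (by linarith)
      have h5 := mul_le_mul bp1 h3 (by positivity) (by positivity)
      have h6 := mul_le_mul_of_nonneg_left h5 hD2
      refine le_trans (le_of_eq ?_) h6
      rw [hσ]
      ring
    · have h2 := (J1 κ hκ (dm B) hdB b hb).2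
      rw [hι] at h2
      have h4 := mul_le_mul_of_nonneg_left h2 hN0.le
      refine h4.trans ?_
      have e4 : N * (C3 n (1 + κ) * (2 / κ) * (b ^ (-(1 + κ)) * Ep (1 + κ) (dm B))) =
          C3 n σ * (2 / κ) * (b ^ (-σ) * (N * Ep σ (dm B))) := by
        rw [hσ]
        ring
      rw [e4]
      refine mul_le_mul_of_nonneg_left ?_ (by positivity)
      refine mul_le_mul bp2 ?_ (by positivity) (by positivity)
      have h5 : N * Ep σ (dm B) ≤ N * EQ := mul_le_mul_of_nonneg_left (by linarith) hN0.le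
      have h6 : 0 ≤ N ^ σ * EP := by positivity
      linarith

lemma cG_bounds (n : ℕ) (hn : 0 < n) : ∃ g₀ g₁ : ℝ, 0 < g₀ ∧ ∀ κ : ℝ, 0 ≤ κ → κ ≤ 1 →
    g₀ ≤ cG n κ ∧ cG n κ ≤ g₁ := by
  have hn' : (0 : ℝ) < n := by exact_mod_cast hn
  have hx : ∀ κ : ℝ, 0 ≤ κ → 0 < (κ + 1) / ((2 : ℝ) / n) := fun κ hκ => by positivity
  have hcont : ContinuousOn (cG n) (Icc 0 1) := by
    unfold cG
    refine ContinuousOn.mul (ContinuousOn.mul ?_ continuousOn_const) ?_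
    · refine ContinuousOn.rpow continuousOn_const (by fun_prop) ?_
      intro x _
      exact Or.inl Real.pi_pos.ne'
    · intro κ hκ
      have h1 : ContinuousAt Real.Gamma ((κ + 1) / ((2 : ℝ) / n)) := by
        refine (Real.differentiableAt_Gamma fun m => ?_).continuousAt
        have h2 := hx κ hκ.1
        have h3 : (0 : ℝ) ≤ m := Nat.cast_nonneg m
        intro h4
        linarith
      exact (ContinuousAt.comp (f := fun κ : ℝ => (κ + 1) / ((2 : ℝ) / n)) h1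
        (by fun_prop)).continuousWithinAt
  have hpos : ∀ κ ∈ Icc (0 : ℝ) 1, 0 < cG n κ := by
    intro κ hκ
    unfold cG
    have h1 := hx κ hκ.1
    have h2 := Real.Gamma_pos_of_pos h1
    have h3 : 0 < Real.pi ^ (-(κ + 1) / ((2 : ℝ) / n)) := Real.rpow_pos_of_pos Real.pi_pos _
    positivity
  obtain ⟨a, ha, hmin⟩ := isCompact_Icc.exists_isMinOn ⟨0, left_mem_Icc.mpr zero_le_one⟩ hcont
  obtain ⟨c, hc, hmax⟩ := isCompact_Icc.exists_isMaxOn ⟨0, left_mem_Icc.mpr zero_le_one⟩ hcont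
  exact ⟨cG n a, cG n c, hpos a ha, fun κ h0 h1 => ⟨hmin ⟨h0, h1⟩, hmax ⟨h0, h1⟩⟩⟩

lemma CM_le (n : ℕ) (hn : 0 < n) : ∃ C : ℝ, 0 ≤ C ∧ ∀ κ : ℝ, 0 < κ → κ ≤ 1 →
    CM n κ ≤ C * κ ^ (-2 : ℝ) := by
  obtain ⟨g₀, g₁, hg₀, hg⟩ := cG_bounds n hn
  have hCt := Ct_pos n
  have hg₁ : 0 ≤ g₁ := by
    have := hg 1 zero_le_one le_rfl
    linarith
  refine ⟨(Ct n * ((1 + Ct n) * n.factorial) * 4 * (9 * (1 + 2 * g₁) ^ 2) +
    n.factorial * 2) / g₀, by positivity, fun κ hκ hκ1 => ?_⟩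
  obtain ⟨h1, h2⟩ := hg κ hκ.le hκ1
  have hG0 : 0 < cG n κ := by linarith
  have hκ2 : κ ^ (-2 : ℝ) = 1 / κ ^ 2 := by
    rw [Real.rpow_neg hκ.le, Real.rpow_two, one_div]
  have hC3 : C3 n (1 + κ) ≤ n.factorial := by
    unfold C3
    have : ⌈(n : ℝ) * (1 + κ) / 2⌉₊ ≤ n := by
      rw [Nat.ceil_le]
      have : (0 : ℝ) ≤ n := Nat.cast_nonneg n
      nlinarith
    exact_mod_cast Nat.factorial_le this
  have hC30 := one_le_C3 n (1 + κ)
  have hf : (1 : ℝ) ≤ n.factorial := by linarith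
  have hD2 : D2 n κ ≤ Ct n * ((1 + Ct n) * n.factorial) * 4 * (1 / κ ^ 2) := by
    unfold D2
    have e : 2 * (1 + κ) / κ ^ 2 ≤ 4 * (1 / κ ^ 2) := by
      rw [← mul_div_assoc, mul_one]
      exact div_le_div_of_nonneg_right (by linarith) (by positivity)
    have e2 : Ct n * ((1 + Ct n) * C3 n (1 + κ)) ≤ Ct n * ((1 + Ct n) * n.factorial) :=
      mul_le_mul_of_nonneg_left (mul_le_mul_of_nonneg_left hC3 (by linarith)) hCt.le
    refine (mul_le_mul e2 e (by positivity) (by positivity)).trans (le_of_eq ?_)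
    ring
  have hD20 : 0 ≤ D2 n κ := by
    unfold D2
    positivity
  have hD : (1 + κ * (κ + 1) * cG n κ) ^ 2 ≤ (1 + 2 * g₁) ^ 2 := by
    refine pow_le_pow_left₀ (by positivity) ?_ 2
    have : κ * (κ + 1) ≤ 2 := by nlinarith
    nlinarith [mul_le_mul this h2 hG0.le (by norm_num)]
  have hlast : C3 n (1 + κ) * (2 / κ) ≤ n.factorial * 2 * (1 / κ ^ 2) := by
    have e : 2 / κ ≤ 2 * (1 / κ ^ 2) := by
      rw [← mul_div_assoc, mul_one]
      refine div_le_div_of_nonneg_left (by norm_num) (by positivity) ?_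
      nlinarith
    refine (mul_le_mul hC3 e (by positivity) (by positivity)).trans (le_of_eq ?_)
    ring
  unfold CM
  rw [hκ2, div_mul_eq_mul_div]
  refine div_le_div₀ ?_ ?_ hg₀ h1
  · positivity
  · have h3 := mul_le_mul hD2 (mul_le_mul_of_nonneg_left hD (by norm_num : (0 : ℝ) ≤ 9))
      (by positivity) (by positivity)
    refine (add_le_add h3 hlast).trans (le_of_eq ?_)
    ring

/-- (MS) with explicit dependence on `κ` -/
def T_MSk : Prop :=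
  ∀ n : ℕ, 0 < n → ∃ C : ℝ, 0 ≤ C ∧ ∀ κ : ℝ, 0 < κ → κ ≤ 1 → ∀ (ι : Type) [Fintype ι]
    [DecidableEq ι] (P Q : Matrix ι ι ℝ), P.PosDef → Q.PosDef → P.det = 1 → Q.det = 1 →
    Fintype.card ι = n → ∀ N b : ℝ, 1 ≤ N → 0 < b → b ≤ 1 →
    (IntegrableOn (fun T => (Fs P (T * b / N) - 1) * Fs Q (T * b) * T ^ (κ / 2)) (Ioi 1) ∧
    ∫ T in Ioi (1 : ℝ), (Fs P (T * b / N) - 1) * Fs Q (T * b) * T ^ (κ / 2) ≤
      C * κ ^ (-2 : ℝ) * b ^ (-(3 : ℝ)) *
        (N * (AF κ Q + AF κ Q⁻¹) + N ^ (1 + κ) * (AF κ P + AF κ P⁻¹))) ∧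
    (IntegrableOn (fun T => N * ((Fs Q⁻¹ (T * b) - 1) * Fs P⁻¹ (T * b * N)) * T ^ (κ / 2))
      (Ioi 1) ∧
    ∫ T in Ioi (1 : ℝ), N * ((Fs Q⁻¹ (T * b) - 1) * Fs P⁻¹ (T * b * N)) * T ^ (κ / 2) ≤
      C * κ ^ (-2 : ℝ) * b ^ (-(3 : ℝ)) *
        (N * (AF κ Q + AF κ Q⁻¹) + N ^ (1 + κ) * (AF κ P + AF κ P⁻¹)))

/-- (MS) with explicit dependence on `κ` -/
theorem pf_MSk : T_MSk := by
  intro n hn
  obtain ⟨C, hC, hCM⟩ := CM_le n hn
  refine ⟨C, hC, ?_⟩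
  intro κ hκ hκ1 ι _ _ P Q hP hQ hdP hdQ hι N b hN hb hb1
  obtain ⟨⟨h1, h2⟩, h3, h4⟩ := ms0 n hn κ hκ hκ1 ι P Q hP hQ hdP hdQ hι N b hN hb hb1
  have hAF : ∀ R : Matrix ι ι ℝ, R.PosDef → R.det = 1 → 0 ≤ AF κ R := by
    intro R hR hdR
    have hne : Nonempty ι := by
      rw [← Fintype.card_pos_iff, hι]
      exact hn
    obtain ⟨A, hA0, hA, rfl⟩ := root R hR hdR
    exact le_trans (by positivity) (pf_LF' κ hκ A hA)
  have hi : ∀ R : Matrix ι ι ℝ, R.PosDef → R.det = 1 → 0 ≤ AF κ R⁻¹ := by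
    intro R hR hdR
    refine hAF R⁻¹ hR.inv ?_
    rw [Matrix.det_nonsing_inv, hdR, Ring.inverse_one]
  have hX : 0 ≤ N * (AF κ Q + AF κ Q⁻¹) + N ^ (1 + κ) * (AF κ P + AF κ P⁻¹) := by
    have a1 := hAF Q hQ hdQ
    have a2 := hi Q hQ hdQ
    have a3 := hAF P hP hdP
    have a4 := hi P hP hdP
    positivity
  have hb3 : 0 ≤ b ^ (-(3 : ℝ)) := Real.rpow_nonneg hb.le _
  have key : CM n κ * b ^ (-(3 : ℝ)) *
      (N * (AF κ Q + AF κ Q⁻¹) + N ^ (1 + κ) * (AF κ P + AF κ P⁻¹)) ≤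
      C * κ ^ (-2 : ℝ) * b ^ (-(3 : ℝ)) *
        (N * (AF κ Q + AF κ Q⁻¹) + N ^ (1 + κ) * (AF κ P + AF κ P⁻¹)) :=
    mul_le_mul_of_nonneg_right (mul_le_mul_of_nonneg_right (hCM κ hκ hκ1) hb3) hX
  exact ⟨⟨h1, h2.trans key⟩, h3, h4.trans key⟩

/-- (LF) for `κ ≤ 1` -/
theorem pf_LFk : ∀ κ : ℝ, 0 < κ → κ ≤ 1 → ∀ (ι : Type) [Fintype ι] [DecidableEq ι] [Nonempty ι]
    (P : Matrix ι ι ℝ), P.PosDef → P.det = 1 → 1 / 2 ≤ AF κ P := by
  intro κ hκ hκ1 ι _ _ _ P hP hd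
  obtain ⟨A, _, hA, rfl⟩ := root P hP hd
  refine le_trans ?_ (pf_LF' κ hκ A hA)
  refine one_div_le_one_div_of_le (by positivity) ?_
  nlinarith

end Pool.Agent.H61.GLA
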